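import Mathlib

/-!
# Definitions for MP_97d5d8_an

Solutions of Fisher-KPP equations in `ℝ^N` with initial datum the indicator of a set, their
Ω-limit sets, and the conditions (D) and (B).
-/

namespace Pool.Agent.R962.KPP

open MeasureTheory Set Filter Topology
open scoped ENNReal RealInnerProductSpace

/-- the Euclidean space `ℝ^N` -/
abbrev EN (N : ℕ) := EuclideanSpace ℝ (Fin N)

/-- The heat semigroup on bounded measurable functions on `ℝ^N`, for `t > 0`: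
`(4 π t)^(-N/2) ∫ exp (-|x - y|²/(4 t)) φ(y) dy`. -/
noncomputable def heat (N : ℕ) (t : ℝ) (φ : EN N → ℝ) (x : EN N) : ℝ :=
  ∫ y, (4 * Real.pi * t) ^ (-(N : ℝ) / 2) * Real.exp (-(‖x - y‖ ^ 2 / (4 * t))) * φ y

/-- `f` is a `C¹` function on `[0,1]` of Fisher-KPP type: `f(0) = f(1) = 0`, `f'(0) > 0` and
`0 < f(s) ≤ f'(0) s` on `(0,1)`. -/
structure IsKPP (f : ℝ → ℝ) : Prop where
  smooth : ContDiffOn ℝ 1 f (Icc 0 1)
  zero : f 0 = 0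
  one : f 1 = 0
  deriv_pos : 0 < derivWithin f (Icc 0 1) 0
  pos : ∀ s ∈ Ioo (0 : ℝ) 1, 0 < f s
  le : ∀ s ∈ Ioo (0 : ℝ) 1, f s ≤ derivWithin f (Icc 0 1) 0 * s

/-- `u` is the bounded solution of `∂_t u = Δu + f(u)` with `u(0,·) = 1_U` and `0 ≤ u ≤ 1`, in the
usual integral (Duhamel) form. -/
structure IsSol (N : ℕ) (f : ℝ → ℝ) (U : Set (EN N)) (u : ℝ → EN N → ℝ) : Prop where
  meas : Measurable fun q : ℝ × EN N => u q.1 q.2
  mem : ∀ t, 0 ≤ t → ∀ x, u t x ∈ Icc (0 : ℝ) 1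
  init : u 0 = U.indicator fun _ => 1
  duhamel : ∀ t, 0 < t → ∀ x, u t x = heat N t (U.indicator fun _ => 1) x +
    ∫ s in (0 : ℝ)..t, heat N (t - s) (fun y => f (u s y)) x

/-- `Ω(u)`: the bounded measurable functions `ψ` with `u(t_n, x_n + ·) → ψ` in `L^∞_loc` for some
`t_n → ∞` and some points `x_n`. -/
def Omega {N : ℕ} (u : ℝ → EN N → ℝ) : Set (EN N → ℝ) :=
  {ψ | Measurable ψ ∧ (∃ C : ℝ, ∀ᵐ y, |ψ y| ≤ C) ∧
    ∃ (t : ℕ → ℝ) (x : ℕ → EN N), Tendsto t atTop atTop ∧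
      ∀ R ε : ℝ, 0 < ε → ∀ᶠ n in atTop, ∀ᵐ y, ‖y‖ ≤ R → |u (t n) (x n + y) - ψ y| ≤ ε}

/-- `ψ` is (almost everywhere equal to) a function `Ψ(x · e)` with `|e| = 1`. -/
def OneDim {N : ℕ} (ψ : EN N → ℝ) : Prop :=
  ∃ e : EN N, ‖e‖ = 1 ∧ ∃ Ψ : ℝ → ℝ, ∀ᵐ y, ψ y = Ψ ⟪y, e⟫

/-- `U_δ`: the points of `U` at distance at least `δ` from the boundary of `U`. -/
def innerPart {N : ℕ} (U : Set (EN N)) (δ : ℝ) : Set (EN N) :=
  {x ∈ U | ENNReal.ofReal δ ≤ Metric.infEDist x (frontier U)}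

/-- Condition (D): `d_H(U, U_δ) < ∞` for some `δ > 0`. -/
def CondD {N : ℕ} (U : Set (EN N)) : Prop :=
  ∃ δ : ℝ, 0 < δ ∧ Metric.hausdorffEDist U (innerPart U δ) < ∞

/-- `π_x`: the nearest points of the closure of `U`. -/
def proj {N : ℕ} (U : Set (EN N)) (x : EN N) : Set (EN N) :=
  {ξ ∈ closure U | ‖x - ξ‖ = Metric.infDist x U}

/-- The opening function, with values in `[-∞, ∞]` (supremum over the empty set: `-∞`). -/
noncomputable def opening {N : ℕ} (U : Set (EN N)) (x : EN N) : EReal :=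
  ⨆ ξ ∈ proj U x, ⨆ y ∈ U \ {ξ}, ((⟪‖x - ξ‖⁻¹ • (x - ξ), ‖y - ξ‖⁻¹ • (y - ξ)⟫ : ℝ) : EReal)

/-- Condition (B): `lim_{R → ∞} sup {opening x : dist(x, U) = R} ≤ 0`. -/
def CondB {N : ℕ} (U : Set (EN N)) : Prop :=
  limsup (fun R : ℝ => ⨆ x ∈ {x : EN N | Metric.infEDist x U = ENNReal.ofReal R}, opening U x)
    atTop ≤ 0

end Pool.Agent.R962.KPP
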