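import Pool.Agent.R962.KPP.Mild

/-!
# Existence of mild solutions
-/

namespace Pool.Agent.R962.KPP

open MeasureTheory Set Filter Topology ProbabilityTheory
open scoped ENNReal RealInnerProductSpace

variable {N : ℕ}

theorem int_exp {r t : ℝ} (hrt : r ≤ t) :
    ∫ s in Ioc r t, Real.exp (-(s - r)) = 1 - Real.exp (-(t - r)) := by
  rw [← intervalIntegral.integral_of_le hrt]
  have h1 : ∀ s ∈ uIcc r t, HasDerivAt (fun s : ℝ => -Real.exp (-(s - r)))
      (Real.exp (-(s - r))) s := by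
    intro s _
    have := (((hasDerivAt_id s).sub_const r).neg.exp).neg
    have e : Real.exp (-(s - r)) = -(Real.exp (-(id s - r)) * -1) := by
      simp
    rw [e]
    exact this
  rw [intervalIntegral.integral_eq_sub_of_hasDerivAt h1
    ((by fun_prop : Continuous fun s : ℝ => Real.exp (-(s - r))).intervalIntegrable _ _)]
  simp
  ring

theorem int_exp' {t : ℝ} (ht : 0 ≤ t) :
    ∫ s in Ioc 0 t, Real.exp (-(t - s)) = 1 - Real.exp (-t) := by
  rw [← intervalIntegral.integral_of_le ht]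
  have h1 : ∀ s ∈ uIcc 0 t, HasDerivAt (fun s : ℝ => Real.exp (-(t - s)))
      (Real.exp (-(t - s))) s := by
    intro s _
    have := (((hasDerivAt_id s).const_sub t).neg.exp)
    simpa using this
  rw [intervalIntegral.integral_eq_sub_of_hasDerivAt h1
    ((by fun_prop : Continuous fun s : ℝ => Real.exp (-(t - s))).intervalIntegrable _ _)]
  simp

theorem tri {κ : ℝ → ℝ} (hκ : Measurable κ) {C : ℝ} (hC : ∀ r, |κ r| ≤ C) {t : ℝ} :
    ∫ s in Ioc 0 t, ∫ r in Ioc 0 s, Real.exp (-(s - r)) * κ r =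
      ∫ r in Ioc 0 t, (1 - Real.exp (-(t - r))) * κ r := by
  have hfin : IsFiniteMeasure (volume.restrict (Ioc (0 : ℝ) t)) := ⟨by simp⟩
  have hC0 : 0 ≤ C := (abs_nonneg _).trans (hC 0)
  have h1 : ∀ s ∈ Ioc 0 t, ∫ r in Ioc 0 s, Real.exp (-(s - r)) * κ r =
      ∫ r in Ioc 0 t, (if r < s then Real.exp (-(s - r)) * κ r else 0) := by
    intro s hs
    rw [integral_Ioc_eq_integral_Ioo]
    have h2 : ∀ r, (if r < s then Real.exp (-(s - r)) * κ r else 0) =
        (Iio s).indicator (fun r => Real.exp (-(s - r)) * κ r) r := by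
      intro r
      simp [Set.indicator_apply]
    simp_rw [h2]
    rw [setIntegral_indicator measurableSet_Iio]
    congr 2
    ext r
    simp only [mem_Ioo, mem_inter_iff, mem_Ioc, mem_Iio]
    constructor
    · rintro ⟨a, b⟩
      exact ⟨⟨a, by linarith [hs.2]⟩, b⟩
    · rintro ⟨⟨a, _⟩, b⟩
      exact ⟨a, b⟩
  rw [setIntegral_congr_fun measurableSet_Ioc h1, integral_integral_swap]
  · refine setIntegral_congr_fun measurableSet_Ioc fun r hr => ?_
    beta_reduce
    have h2 : ∀ s, (if r < s then Real.exp (-(s - r)) * κ r else 0) =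
        (Ioi r).indicator (fun s => Real.exp (-(s - r)) * κ r) s := by
      intro s
      simp [Set.indicator_apply]
    simp_rw [h2]
    rw [setIntegral_indicator measurableSet_Ioi]
    have h3 : Ioc 0 t ∩ Ioi r = Ioc r t := by
      ext s
      simp only [mem_inter_iff, mem_Ioc, mem_Ioi]
      constructor
      · rintro ⟨⟨_, a⟩, b⟩
        exact ⟨b, a⟩
      · rintro ⟨a, b⟩
        exact ⟨⟨hr.1.trans a, b⟩, a⟩
    rw [h3, integral_mul_const, int_exp hr.2]
  · have hm : Measurable fun q : ℝ × ℝ =>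
        if q.2 < q.1 then Real.exp (-(q.1 - q.2)) * κ q.2 else 0 := by
      refine Measurable.ite (measurableSet_lt measurable_snd measurable_fst) ?_ measurable_const
      have h5 : Measurable fun q : ℝ × ℝ => κ q.2 := hκ.comp measurable_snd
      exact (by fun_prop : Measurable fun q : ℝ × ℝ => Real.exp (-(q.1 - q.2))).mul h5
    refine Integrable.of_bound hm.aestronglyMeasurable C (Filter.Eventually.of_forall fun q => ?_)
    show ‖(if q.2 < q.1 then Real.exp (-(q.1 - q.2)) * κ q.2 else 0)‖ ≤ C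
    split_ifs with hq
    · rw [Real.norm_eq_abs, abs_mul, Real.abs_exp]
      have : Real.exp (-(q.1 - q.2)) ≤ 1 := Real.exp_le_one_iff.2 (by linarith)
      calc _ ≤ 1 * C := mul_le_mul this (hC _) (abs_nonneg _) zero_le_one
        _ = C := one_mul _
    · simpa using hC0

theorem exp_abs_le {t s : ℝ} (hs : s ≤ t) : |Real.exp (-(t - s))| ≤ 1 := by
  rw [Real.abs_exp]
  exact Real.exp_le_one_iff.2 (by linarith)

/-- **Shift lemma.** -/
theorem shift {φ : EN N → ℝ} (hφ : Measurable φ) {Cφ : ℝ} (hφb : ∀ x, |φ x| ≤ Cφ)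
    {h A : ℝ → EN N → ℝ} {C C' : ℝ} (hh : BM h C) (hA : BM A C')
    (hAeq : ∀ t, 0 ≤ t → ∀ x, A t x = Real.exp (-t) * H t φ x +
      ∫ s in Ioc 0 t, Real.exp (-(t - s)) * H (t - s) (h s) x) (t : ℝ) (ht : 0 ≤ t) (x : EN N) :
    A t x = H t φ x + ∫ s in Ioc 0 t, H (t - s) (fun y => h s y - A s y) x := by
  have h1 : ∀ s ∈ Ioc 0 t, H (t - s) (fun y => h s y - A s y) x =
      H (t - s) (h s) x - (Real.exp (-s) * H t φ x +
        ∫ r in Ioc 0 s, Real.exp (-(s - r)) * H (t - r) (h r) x) := by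
    intro s hs
    rw [H_sub (hh.meas' s) (hA.meas' s) (hh.bd s) (hA.bd s)]
    congr 1
    have hm : Measurable (H s φ) :=
      H_meas (X := EN N) (τ := fun _ => s) (ξ := fun y => y) (F := fun _ => φ)
        measurable_const measurable_id (hφ.comp measurable_snd)
    have hb : ∀ y, |H s φ y| ≤ Cφ := fun y => H_abs_le hφb _ _
    have hb1 : ∀ y, |Real.exp (-s) * H s φ y| ≤ Real.exp (-s) * Cφ := fun y => by
      rw [abs_mul, Real.abs_exp]
      exact mul_le_mul_of_nonneg_left (hb y) (Real.exp_pos _).le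
    have e1 : A s = fun y => Real.exp (-s) * H s φ y +
        ∫ r in Ioc 0 s, Real.exp (-(s - r)) * H (s - r) (h r) y := funext fun y => hAeq s hs.1.le y
    have e2 : (fun y => ∫ r in Ioc 0 s, Real.exp (-(s - r)) * H (s - r) (h r) y) =
        fun y => A s y - Real.exp (-s) * H s φ y := by
      funext y
      rw [hAeq s hs.1.le y]
      ring
    have hm2 : Measurable fun y => ∫ r in Ioc 0 s, Real.exp (-(s - r)) * H (s - r) (h r) y := by
      rw [e2]
      exact (hA.meas' s).sub (hm.const_mul _)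
    have hb2 : ∀ y, |∫ r in Ioc 0 s, Real.exp (-(s - r)) * H (s - r) (h r) y| ≤
        C' + Real.exp (-s) * Cφ := by
      intro y
      have := congrFun e2 y
      beta_reduce at this
      rw [this]
      exact (abs_sub _ _).trans (add_le_add (hA.bd s y) (hb1 y))
    rw [e1, H_add (hm.const_mul _) hm2 hb1 hb2, H_smul, H_H hφ hφb (by linarith [hs.2]) hs.1.le,
      fub hh (by fun_prop : Measurable fun r : ℝ => Real.exp (-(s - r))) (K := 1)
        (fun r hr => exp_abs_le hr.2) hs.2]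
    congr 4
    ring
  rw [setIntegral_congr_fun measurableSet_Ioc h1]
  have hκ : Measurable fun r => H (t - r) (h r) x := hh.Hmeas t x
  have hκb : ∀ r, |H (t - r) (h r) x| ≤ C := fun r => H_abs_le (hh.bd r) _ _
  have i1 : IntegrableOn (fun s : ℝ => Real.exp (-s) * H t φ x) (Ioc 0 t) :=
    (by fun_prop : Continuous fun s : ℝ =>
      Real.exp (-s) * H t φ x).continuousOn.integrableOn_Icc.mono_set Ioc_subset_Icc_self
  have i2 : IntegrableOn (fun s : ℝ => ∫ r in Ioc 0 s,
      Real.exp (-(s - r)) * H (t - r) (h r) x) (Ioc 0 t) := by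
    have hfin : IsFiniteMeasure (volume.restrict (Ioc (0 : ℝ) t)) := ⟨by simp⟩
    have e3 : ∀ s ∈ Ioc 0 t, ∫ r in Ioc 0 s, Real.exp (-(s - r)) * H (t - r) (h r) x =
        H (t - s) (A s) x - Real.exp (-s) * H t φ x := by
      intro s hs
      have := h1 s hs
      rw [H_sub (hh.meas' s) (hA.meas' s) (hh.bd s) (hA.bd s)] at this
      linarith
    refine IntegrableOn.congr_fun ?_ (fun s hs => (e3 s hs).symm) measurableSet_Ioc
    exact (hA.int1 t x 0 t).sub i1
  have i0 : IntegrableOn (fun s : ℝ => H (t - s) (h s) x) (Ioc 0 t) := hh.int1 t x 0 t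
  have i3 : IntegrableOn (fun s : ℝ => Real.exp (-s) * H t φ x + ∫ r in Ioc 0 s,
      Real.exp (-(s - r)) * H (t - r) (h r) x) (Ioc 0 t) := i1.add i2
  rw [integral_sub i0 i3, integral_add i1 i2, tri hκ hκb]
  have h3 : ∀ r, (1 - Real.exp (-(t - r))) * H (t - r) (h r) x =
      H (t - r) (h r) x - Real.exp (-(t - r)) * H (t - r) (h r) x := fun r => by ring
  simp_rw [h3]
  rw [integral_sub i0 (hh.int t x (by fun_prop : Measurable fun r : ℝ => Real.exp (-(t - r)))
    (K := 1) (fun r hr => exp_abs_le hr.2)), integral_mul_const]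
  have h4 : ∫ s in Ioc 0 t, Real.exp (-s) = 1 - Real.exp (-t) := by
    have := int_exp ht
    simpa using this
  rw [h4, hAeq t ht x]
  ring

/-- measurability of Duhamel terms -/
theorem J_meas {h : ℝ → EN N → ℝ} {C : ℝ} (hh : BM h C) :
    Measurable fun q : ℝ × EN N =>
      ∫ s in Ioc 0 q.1, Real.exp (-(q.1 - s)) * H (q.1 - s) (h s) q.2 := by
  have h1 : ∀ q : ℝ × EN N, ∫ s in Ioc 0 q.1, Real.exp (-(q.1 - s)) * H (q.1 - s) (h s) q.2 =
      ∫ s, (if s ∈ Ioc 0 q.1 then Real.exp (-(q.1 - s)) * H (q.1 - s) (h s) q.2 else 0) := by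
    intro q
    rw [← integral_indicator measurableSet_Ioc]
    refine integral_congr_ae (Filter.Eventually.of_forall fun s => ?_)
    simp only [Set.indicator_apply]
  simp_rw [h1]
  have h2 : Measurable fun q : (ℝ × EN N) × ℝ =>
      if q.2 ∈ Ioc 0 q.1.1 then Real.exp (-(q.1.1 - q.2)) * H (q.1.1 - q.2) (h q.2) q.1.2
        else 0 := by
    refine Measurable.ite ?_ (Measurable.mul (by fun_prop) ?_) measurable_const
    · exact (measurableSet_lt measurable_const measurable_snd).inter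
        (measurableSet_le measurable_snd (measurable_fst.comp measurable_fst))
    · refine H_meas (X := (ℝ × EN N) × ℝ) (τ := fun q => q.1.1 - q.2) (ξ := fun q => q.1.2)
        (F := fun q => h q.2) (by fun_prop) (by fun_prop) ?_
      exact hh.meas.comp (by fun_prop :
        Measurable fun q : ((ℝ × EN N) × ℝ) × EN N => (q.1.2, q.2))
  exact (h2.stronglyMeasurable.integral_prod_right (ν := volume)).measurable

/-- the Picard map for `1 - u` -/
noncomputable def Psi (φ' : EN N → ℝ) (v : ℝ → EN N → ℝ) (t : ℝ) (x : EN N) : ℝ :=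
  if 0 ≤ t then Real.exp (-t) * H t φ' x +
    ∫ s in Ioc 0 t, Real.exp (-(t - s)) * H (t - s) (fun y => v s y ^ 2) x else 0

theorem sq_bm {v : ℝ → EN N → ℝ} (hm : Measurable fun q : ℝ × EN N => v q.1 q.2)
    (hv : ∀ t x, v t x ∈ Icc (0 : ℝ) 1) : BM (fun s y => v s y ^ 2) 1 :=
  ⟨hm.pow_const 2, fun t x => by
    rw [abs_of_nonneg (sq_nonneg _)]
    exact pow_le_one₀ (hv t x).1 (hv t x).2⟩

section picard

variable {φ' : EN N → ℝ} (hφ : Measurable φ') (hφb : ∀ x, φ' x ∈ Icc (0 : ℝ) 1)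

include hφ

theorem Psi_meas {v : ℝ → EN N → ℝ} (hm : Measurable fun q : ℝ × EN N => v q.1 q.2)
    (hv : ∀ t x, v t x ∈ Icc (0 : ℝ) 1) :
    Measurable fun q : ℝ × EN N => Psi φ' v q.1 q.2 := by
  unfold Psi
  refine Measurable.ite (measurableSet_le measurable_const measurable_fst) ?_ measurable_const
  refine Measurable.add (Measurable.mul (by fun_prop) ?_) (J_meas (sq_bm hm hv))
  exact H_meas (X := ℝ × EN N) (τ := fun q => q.1) (ξ := fun q => q.2) (F := fun _ => φ')
    measurable_fst measurable_snd (hφ.comp measurable_snd)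

include hφb

theorem Psi_mem {v : ℝ → EN N → ℝ} (hm : Measurable fun q : ℝ × EN N => v q.1 q.2)
    (hv : ∀ t x, v t x ∈ Icc (0 : ℝ) 1) (t : ℝ) (x : EN N) :
    Psi φ' v t x ∈ Icc (0 : ℝ) 1 := by
  unfold Psi
  split_ifs with ht
  · have h0 : 0 ≤ H t φ' x := H_nonneg (fun y => (hφb y).1) _ _
    have h1 : H t φ' x ≤ 1 := (abs_le.1 (H_abs_le (fun y => abs_le_one (hφb y)) t x)).2
    have h2 : 0 ≤ ∫ s in Ioc 0 t, Real.exp (-(t - s)) * H (t - s) (fun y => v s y ^ 2) x :=
      integral_nonneg fun s => mul_nonneg (Real.exp_pos _).le (H_nonneg (fun y => sq_nonneg _) _ _)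
    have h3 : ∫ s in Ioc 0 t, Real.exp (-(t - s)) * H (t - s) (fun y => v s y ^ 2) x ≤
        ∫ s in Ioc 0 t, Real.exp (-(t - s)) := by
      refine setIntegral_mono_on ((sq_bm hm hv).int t x (by fun_prop) (K := 1)
        fun r hr => exp_abs_le hr.2) ?_ measurableSet_Ioc ?_
      · exact (by fun_prop : Continuous fun s : ℝ =>
          Real.exp (-(t - s))).continuousOn.integrableOn_Icc.mono_set Ioc_subset_Icc_self
      · intro s _
        exact mul_le_of_le_one_right (Real.exp_pos _).le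
          (abs_le.1 (H_abs_le ((sq_bm hm hv).bd s) _ _)).2
    rw [int_exp' ht] at h3
    have h4 := Real.exp_pos (-t)
    refine ⟨by positivity, ?_⟩
    have h5 : Real.exp (-t) * H t φ' x ≤ Real.exp (-t) := mul_le_of_le_one_right h4.le h1
    linarith
  · exact ⟨le_rfl, zero_le_one⟩

omit hφ hφb in
theorem Psi_mono {v w : ℝ → EN N → ℝ} (hm : Measurable fun q : ℝ × EN N => v q.1 q.2)
    (hv : ∀ t x, v t x ∈ Icc (0 : ℝ) 1) (hm' : Measurable fun q : ℝ × EN N => w q.1 q.2)
    (hw : ∀ t x, w t x ∈ Icc (0 : ℝ) 1) (h : ∀ t x, v t x ≤ w t x) (t : ℝ) (x : EN N) :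
    Psi φ' v t x ≤ Psi φ' w t x := by
  unfold Psi
  split_ifs with ht
  · refine add_le_add le_rfl ?_
    refine setIntegral_mono_on ((sq_bm hm hv).int t x (by fun_prop) (K := 1)
        fun r hr => exp_abs_le hr.2) ((sq_bm hm' hw).int t x (by fun_prop) (K := 1)
        fun r hr => exp_abs_le hr.2) measurableSet_Ioc fun s _ => ?_
    refine mul_le_mul_of_nonneg_left ?_ (Real.exp_pos _).le
    exact H_mono ((sq_bm hm hv).meas' s) ((sq_bm hm' hw).meas' s) ((sq_bm hm hv).bd s)
      ((sq_bm hm' hw).bd s) (fun y => pow_le_pow_left₀ (hv s y).1 (h s y) 2) _ _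
  · exact le_rfl

/-- existence for `1 - u` -/
theorem exists_v : ∃ v : ℝ → EN N → ℝ, (Measurable fun q : ℝ × EN N => v q.1 q.2) ∧
    (∀ t x, v t x ∈ Icc (0 : ℝ) 1) ∧ ∀ t, 0 ≤ t → ∀ x, v t x = Real.exp (-t) * H t φ' x +
    ∫ s in Ioc 0 t, Real.exp (-(t - s)) * H (t - s) (fun y => v s y ^ 2) x := by
  let vs : ℕ → ℝ → EN N → ℝ := fun n => Nat.rec (fun _ _ => 0) (fun _ v => Psi φ' v) n
  have hs : ∀ n, vs (n + 1) = Psi φ' (vs n) := fun n => rfl
  have h0 : vs 0 = fun _ _ => 0 := rfl
  have hbase : (Measurable fun q : ℝ × EN N => vs 0 q.1 q.2) ∧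
      ∀ t x, vs 0 t x ∈ Icc (0 : ℝ) 1 := by
    rw [h0]
    exact ⟨measurable_const, fun t x => ⟨le_rfl, zero_le_one⟩⟩
  have hprop : ∀ n, (Measurable fun q : ℝ × EN N => vs n q.1 q.2) ∧
      ∀ t x, vs n t x ∈ Icc (0 : ℝ) 1 := by
    intro n
    induction n with
    | zero => exact hbase
    | succ n ih =>
      rw [hs]
      exact ⟨Psi_meas hφ ih.1 ih.2, Psi_mem hφ hφb ih.1 ih.2⟩
  have hmono : ∀ n t x, vs n t x ≤ vs (n + 1) t x := by
    intro n
    induction n with
    | zero =>
      intro t x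
      rw [h0]
      exact ((hprop 1).2 t x).1
    | succ n ih =>
      intro t x
      rw [hs (n + 1), hs n]
      exact Psi_mono (hprop n).1 (hprop n).2 (hprop (n + 1)).1 (hprop (n + 1)).2 ih t x
  let v : ℝ → EN N → ℝ := fun t x => ⨆ n, vs n t x
  have hbdd : ∀ t x, BddAbove (range fun n => vs n t x) := fun t x =>
    ⟨1, by rintro _ ⟨n, rfl⟩; exact ((hprop n).2 t x).2⟩
  have hlim : ∀ t x, Tendsto (fun n => vs n t x) atTop (𝓝 (v t x)) := fun t x =>
    tendsto_atTop_ciSup (monotone_nat_of_le_succ fun n => hmono n t x) (hbdd t x)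
  have hvm : Measurable fun q : ℝ × EN N => v q.1 q.2 :=
    measurable_of_tendsto_metrizable (fun n => (hprop n).1)
      (tendsto_pi_nhds.2 fun q => hlim q.1 q.2)
  have hv : ∀ t x, v t x ∈ Icc (0 : ℝ) 1 := fun t x =>
    ⟨ge_of_tendsto' (hlim t x) fun n => ((hprop n).2 t x).1,
      le_of_tendsto' (hlim t x) fun n => ((hprop n).2 t x).2⟩
  refine ⟨v, hvm, hv, fun t ht x => ?_⟩
  have hfin : IsFiniteMeasure (volume.restrict (Ioc (0 : ℝ) t)) := ⟨by simp⟩
  have h1 : Tendsto (fun n => vs (n + 1) t x) atTop (𝓝 (v t x)) :=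
    (hlim t x).comp (tendsto_add_atTop_nat 1)
  have h2 : Tendsto (fun n => vs (n + 1) t x) atTop (𝓝 (Real.exp (-t) * H t φ' x +
      ∫ s in Ioc 0 t, Real.exp (-(t - s)) * H (t - s) (fun y => v s y ^ 2) x)) := by
    have h3 : ∀ n, vs (n + 1) t x = Real.exp (-t) * H t φ' x +
        ∫ s in Ioc 0 t, Real.exp (-(t - s)) * H (t - s) (fun y => vs n s y ^ 2) x := by
      intro n
      rw [hs, Psi, if_pos ht]
    simp_rw [h3]
    refine Tendsto.const_add _ ?_
    refine tendsto_integral_of_dominated_convergence (fun _ => 1) ?_ (integrable_const _) ?_ ?_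
    · intro n
      exact ((by fun_prop : Measurable fun s : ℝ => Real.exp (-(t - s))).mul
        ((sq_bm (hprop n).1 (hprop n).2).Hmeas t x)).aestronglyMeasurable
    · intro n
      refine (ae_restrict_iff' measurableSet_Ioc).2 (Filter.Eventually.of_forall fun s hs => ?_)
      rw [Real.norm_eq_abs, abs_mul]
      calc _ ≤ 1 * (1 : ℝ) := mul_le_mul (exp_abs_le hs.2)
            (H_abs_le ((sq_bm (hprop n).1 (hprop n).2).bd s) _ _) (abs_nonneg _) zero_le_one
        _ = 1 := one_mul _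
    · refine Filter.Eventually.of_forall fun s => ?_
      refine Tendsto.const_mul _ ?_
      unfold H
      refine tendsto_integral_of_dominated_convergence (fun _ => 1) ?_ (integrable_const _) ?_ ?_
      · intro n
        exact (meas_comp ((sq_bm (hprop n).1 (hprop n).2).meas' s) _ _).aestronglyMeasurable
      · intro n
        exact Filter.Eventually.of_forall fun z => (sq_bm (hprop n).1 (hprop n).2).bd s _
      · exact Filter.Eventually.of_forall fun z => (hlim s _).pow 2
  exact tendsto_nhds_unique h1 h2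

end picard

/-- **Existence of mild solutions.** -/
theorem exists_mild {φ : EN N → ℝ} (hφ : Measurable φ) (hφb : ∀ x, φ x ∈ Icc (0 : ℝ) 1) :
    ∃ u, Mild φ u ∧ ∀ t, t < 0 → u t = 0 := by
  have hφ' : Measurable fun x => 1 - φ x := measurable_const.sub hφ
  have hφb' : ∀ x, 1 - φ x ∈ Icc (0 : ℝ) 1 := fun x =>
    ⟨by linarith [(hφb x).2], by linarith [(hφb x).1]⟩
  obtain ⟨v, hvm, hv, hveq⟩ := exists_v hφ' hφb'
  let A : ℝ → EN N → ℝ := fun t x => 1 - v t x
  have hAm : Measurable fun q : ℝ × EN N => A q.1 q.2 := measurable_const.sub hvm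
  have hA01 : ∀ t x, A t x ∈ Icc (0 : ℝ) 1 := fun t x =>
    ⟨by show 0 ≤ 1 - v t x; linarith [(hv t x).2], by show 1 - v t x ≤ 1; linarith [(hv t x).1]⟩
  have hA : BM A 1 := ⟨hAm, fun t x => abs_le_one (hA01 t x)⟩
  have hh : BM (fun s y => 1 - v s y ^ 2) 1 := by
    refine ⟨measurable_const.sub (hvm.pow_const 2), fun t x => abs_le_one ⟨?_, ?_⟩⟩
    · have := pow_le_one₀ (n := 2) (hv t x).1 (hv t x).2
      linarith
    · have := sq_nonneg (v t x)
      linarith
  have hsq : BM (fun s y => v s y ^ 2) 1 := sq_bm hvm hv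
  have hAeq : ∀ t, 0 ≤ t → ∀ x, A t x = Real.exp (-t) * H t φ x +
      ∫ s in Ioc 0 t, Real.exp (-(t - s)) * H (t - s) (fun y => 1 - v s y ^ 2) x := by
    intro t ht x
    have e1 : H t (fun x => 1 - φ x) x = 1 - H t φ x := by
      rw [H_sub (C := 1) (C' := 1) measurable_const hφ (by simp) (fun y => abs_le_one (hφb y)),
        H_const]
    have e2 : ∀ s, Real.exp (-(t - s)) * H (t - s) (fun y => 1 - v s y ^ 2) x =
        Real.exp (-(t - s)) - Real.exp (-(t - s)) * H (t - s) (fun y => v s y ^ 2) x := by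
      intro s
      rw [H_sub (C := 1) (C' := 1) measurable_const (hsq.meas' s) (by simp) (hsq.bd s), H_const]
      ring
    simp_rw [e2]
    rw [integral_sub, int_exp' ht]
    · show 1 - v t x = _
      rw [hveq t ht x, e1]
      ring
    · exact (by fun_prop : Continuous fun s : ℝ =>
        Real.exp (-(t - s))).continuousOn.integrableOn_Icc.mono_set Ioc_subset_Icc_self
    · exact hsq.int t x (by fun_prop) (K := 1) fun r hr => exp_abs_le hr.2
  have key := shift hφ (fun x => abs_le_one (hφb x)) hh hA hAeq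
  refine ⟨fun t x => if 0 ≤ t then A t x else 0, ⟨hφ, hφb, ?_, ?_, ?_⟩, ?_⟩
  · exact Measurable.ite (measurableSet_le measurable_const measurable_fst) hAm measurable_const
  · intro t x
    beta_reduce
    split_ifs
    · exact hA01 t x
    · exact ⟨le_rfl, zero_le_one⟩
  · intro t ht x
    beta_reduce
    rw [if_pos ht, key t ht x]
    congr 1
    refine setIntegral_congr_fun measurableSet_Ioc fun s hs => ?_
    beta_reduce
    congr 1
    funext y
    rw [if_pos hs.1.le]
    show 1 - v s y ^ 2 - (1 - v s y) = (1 - v s y) * (1 - (1 - v s y))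
    ring
  · intro t ht
    funext x
    beta_reduce
    rw [if_neg (not_le.2 ht)]
    rfl

end Pool.Agent.R962.KPP
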