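import Pool.Agent.R962.KPP.Spread

/-!
# Solutions, and one-dimensionality of the Omega-limit set
-/

namespace Pool.Agent.R962.KPP

open MeasureTheory Set Filter Topology ProbabilityTheory
open scoped ENNReal RealInnerProductSpace

/-- the logistic nonlinearity -/
def logistic (s : ℝ) : ℝ := s * (1 - s)

theorem logistic_kpp : IsKPP logistic := by
  have hd : derivWithin logistic (Icc 0 1) 0 = 1 := by
    have h1 : HasDerivAt logistic (1 * (1 - 0) + 0 * (0 - 1)) 0 :=
      (hasDerivAt_id (0 : ℝ)).mul ((hasDerivAt_const (0 : ℝ) (1 : ℝ)).sub (hasDerivAt_id (0 : ℝ)))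
    rw [h1.hasDerivWithinAt.derivWithin
      (uniqueDiffOn_Icc zero_lt_one 0 ⟨le_rfl, zero_le_one⟩)]
    norm_num
  refine ⟨?_, by simp [logistic], by simp [logistic], by rw [hd]; exact one_pos, ?_, ?_⟩
  · unfold logistic
    fun_prop
  · intro s hs
    exact mul_pos hs.1 (by linarith [hs.2])
  · intro s hs
    rw [hd, one_mul, logistic]
    nlinarith [hs.1, hs.2]

/-- from solutions to mild solutions -/
theorem IsSol.mild {u : ℝ → EN 2 → ℝ} (h : IsSol 2 logistic UU u) :
    Mild φU (fun t x => if 0 ≤ t then u t x else 0) where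
  measφ := φU_meas
  memφ := φU_mem
  meas := Measurable.ite (measurableSet_le measurable_const measurable_fst) h.meas
    measurable_const
  mem t x := by
    split_ifs with ht
    · exact h.mem t ht x
    · exact ⟨le_rfl, zero_le_one⟩
  eq t ht x := by
    beta_reduce
    rw [if_pos ht]
    rcases eq_or_lt_of_le ht with rfl | ht0
    · rw [h.init, H_zero]
      simp [φU]
    · rw [h.duhamel t ht0 x, heat_eq ht0]
      congr 1
      rw [intervalIntegral.integral_of_le ht, integral_Ioc_eq_integral_Ioo,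
        integral_Ioc_eq_integral_Ioo]
      refine setIntegral_congr_fun measurableSet_Ioo fun s hs => ?_
      beta_reduce
      rw [heat_eq (sub_pos.2 hs.2)]
      congr 1
      funext y
      rw [if_pos hs.1.le, logistic]

/-- the solution exists -/
theorem exists_sol : ∃ u, IsSol 2 logistic UU u := by
  obtain ⟨u, hu, -⟩ := exists_mild φU_meas φU_mem
  refine ⟨u, hu.meas, fun t _ x => hu.mem t x, ?_, ?_⟩
  · funext x
    rw [hu.eq 0 le_rfl x, H_zero]
    simp [φU]
  · intro t ht x
    rw [hu.eq t ht.le x, heat_eq ht]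
    congr 1
    rw [intervalIntegral.integral_of_le ht.le, integral_Ioc_eq_integral_Ioo,
      integral_Ioc_eq_integral_Ioo]
    refine setIntegral_congr_fun measurableSet_Ioo fun s hs => ?_
    beta_reduce
    rw [heat_eq (sub_pos.2 hs.2)]
    rfl

/-- the solution is unique -/
theorem sol_unique {u v : ℝ → EN 2 → ℝ} (hu : IsSol 2 logistic UU u)
    (hv : IsSol 2 logistic UU v) (t : ℝ) (ht : 0 ≤ t) : u t = v t := by
  have h := mild_unique hu.mild hv.mild t ht
  funext x
  have h1 := congrFun h x
  beta_reduce at h1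
  rwa [if_pos ht, if_pos ht] at h1

/-- every element of the Omega-limit set is one-dimensional -/
theorem omega_oneDim {u : ℝ → EN 2 → ℝ} (hu : IsSol 2 logistic UU u) :
    ∀ ψ ∈ Omega u, OneDim ψ := by
  rintro ψ ⟨-, -, t, x, ht, hlim⟩
  have htr : ∀ h : ℝ, ∀ ε : ℝ, 0 < ε → ∀ᶠ n in atTop, ∀ y : EN 2,
      |u (t n) (y + pt 0 h) - u (t n) y| ≤ ε := by
    intro h ε hε
    have h1 := translation hu.mild h hε
    filter_upwards [ht.eventually h1, ht.eventually_ge_atTop 0] with n hn hn0 y
    have h2 := hn y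
    rwa [if_pos hn0, if_pos hn0] at h2
  refine ⟨pt 1 0, ?_, fun a => limsup (fun n => u (t n) (x n + pt a 0)) atTop, ?_⟩
  · have h1 := norm_pt_sq (pt 1 0)
    rw [pt_zero, pt_one] at h1
    have h2 : ‖pt 1 0‖ ^ 2 = 1 ^ 2 := by rw [h1]; norm_num
    exact (pow_left_inj₀ (norm_nonneg _) zero_le_one (by norm_num)).1 h2
  · have h1 : ∀ k m : ℕ, ∃ M : ℕ, ∀ n ≥ M, ∀ᵐ y : EN 2,
        ‖y‖ ≤ k → |u (t n) (x n + y) - ψ y| ≤ 1 / ((m : ℝ) + 1) := fun k m =>
      eventually_atTop.1 (hlim k (1 / ((m : ℝ) + 1)) (by positivity))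
    choose M hM using h1
    have h2 : ∀ᵐ y : EN 2, ∀ k m n : ℕ, M k m ≤ n →
        ‖y‖ ≤ k → |u (t n) (x n + y) - ψ y| ≤ 1 / ((m : ℝ) + 1) := by
      rw [ae_all_iff]
      intro k
      rw [ae_all_iff]
      intro m
      rw [ae_all_iff]
      intro n
      by_cases hn : M k m ≤ n
      · filter_upwards [hM k m n hn] with y hy _
        exact hy
      · exact Filter.Eventually.of_forall fun y h => absurd h hn
    filter_upwards [h2] with y hy
    have hconv : Tendsto (fun n => u (t n) (x n + y)) atTop (𝓝 (ψ y)) := by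
      rw [Metric.tendsto_atTop]
      intro ε hε
      obtain ⟨k, hk⟩ := exists_nat_ge ‖y‖
      obtain ⟨m, hm⟩ := exists_nat_one_div_lt hε
      refine ⟨M k m, fun n hn => ?_⟩
      rw [Real.dist_eq]
      exact lt_of_le_of_lt (hy k m n hn hk) hm
    have hdiff : Tendsto (fun n => u (t n) (x n + y) - u (t n) (x n + pt (y 0) 0)) atTop
        (𝓝 0) := by
      rw [Metric.tendsto_atTop]
      intro ε hε
      obtain ⟨n0, hn0⟩ := eventually_atTop.1 (htr (y 1) (ε / 2) (by linarith))
      refine ⟨n0, fun n hn => ?_⟩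
      rw [Real.dist_eq, sub_zero]
      have h3 := hn0 n hn (x n + pt (y 0) 0)
      have h4 : x n + pt (y 0) 0 + pt 0 (y 1) = x n + y := by
        rw [add_assoc]
        congr 1
        ext i
        fin_cases i
        · show y 0 + 0 = y 0
          ring
        · show 0 + y 1 = y 1
          ring
      rw [h4] at h3
      linarith
    have hconv2 : Tendsto (fun n => u (t n) (x n + pt (y 0) 0)) atTop (𝓝 (ψ y)) := by
      have := hconv.sub hdiff
      simpa using this
    have hin : ⟪y, pt 1 0⟫ = y 0 := by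
      rw [PiLp.inner_apply, Fin.sum_univ_two]
      simp
    rw [hin]
    exact hconv2.limsup_eq.symm

end Pool.Agent.R962.KPP
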