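import Pool.Agent.R962.KPP.Defs

/-!
# The set U: complement of a slowly opening horn
-/

namespace Pool.Agent.R962.KPP

open MeasureTheory Set Filter Topology
open scoped ENNReal RealInnerProductSpace

/-- the width of the horn -/
noncomputable def W (s : ℝ) : ℝ := (1 / 2) * Real.log (1 + Real.log (1 + max s 0))

theorem log_one_nonneg {s : ℝ} (hs : 0 ≤ s) : 0 ≤ Real.log (1 + s) :=
  Real.log_nonneg (by linarith)

theorem W_nonneg (s : ℝ) : 0 ≤ W s := by
  unfold W
  have := log_one_nonneg (log_one_nonneg (le_max_right s 0))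
  positivity

theorem W_zero {s : ℝ} (hs : s ≤ 0) : W s = 0 := by
  unfold W
  simp [max_eq_right hs]

theorem W_max (s : ℝ) : W (max s 0) = W s := by
  unfold W
  simp

theorem log_diff {a b : ℝ} (ha : 0 ≤ a) (hab : a ≤ b) :
    Real.log (1 + b) - Real.log (1 + a) ≤ (b - a) / (1 + a) := by
  have h1 : 0 < 1 + a := by linarith
  have h2 : 0 < 1 + b := by linarith
  rw [← Real.log_div h2.ne' h1.ne']
  refine (Real.log_le_sub_one_of_pos (div_pos h2 h1)).trans (le_of_eq ?_)
  field_simp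
  ring

theorem W_diff {s t : ℝ} (hs : 0 ≤ s) (hst : s ≤ t) : W t - W s ≤ (t - s) / (2 * (1 + s)) := by
  unfold W
  rw [max_eq_left hs, max_eq_left (hs.trans hst)]
  have h1 := log_diff hs hst
  have h2 := log_one_nonneg hs
  have h3 : Real.log (1 + s) ≤ Real.log (1 + t) := Real.log_le_log (by linarith) (by linarith)
  have h4 := log_diff h2 h3
  have h5 : (Real.log (1 + t) - Real.log (1 + s)) / (1 + Real.log (1 + s)) ≤
      Real.log (1 + t) - Real.log (1 + s) :=
    div_le_self (by linarith) (by linarith)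
  have h6 : (t - s) / (2 * (1 + s)) = (1 / 2) * ((t - s) / (1 + s)) := by
    have : (1 + s) ≠ 0 := by linarith
    field_simp
  rw [h6]
  linarith

theorem W_mono : Monotone W := by
  intro s t hst
  unfold W
  have h1 : max s 0 ≤ max t 0 := max_le_max hst le_rfl
  have h2 : Real.log (1 + max s 0) ≤ Real.log (1 + max t 0) :=
    Real.log_le_log (by linarith [le_max_right s 0]) (by linarith)
  have h3 := log_one_nonneg (le_max_right s 0)
  have h4 : Real.log (1 + Real.log (1 + max s 0)) ≤ Real.log (1 + Real.log (1 + max t 0)) :=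
    Real.log_le_log (by linarith) (by linarith)
  linarith

theorem W_lip {s t : ℝ} (hst : s ≤ t) : W t - W s ≤ (t - s) / 2 := by
  rw [← W_max s, ← W_max t]
  have h0 := le_max_right s 0
  have h1 : max s 0 ≤ max t 0 := max_le_max hst le_rfl
  refine (W_diff h0 h1).trans ?_
  have h2 : (max t 0 - max s 0) / (2 * (1 + max s 0)) ≤ (max t 0 - max s 0) / 2 := by
    refine div_le_div_of_nonneg_left (by linarith) (by norm_num) (by linarith)
  have h3 : max t 0 - max s 0 ≤ t - s := by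
    rcases le_total t 0 with h | h
    · rw [max_eq_right h, max_eq_right (hst.trans h)]; linarith
    · rw [max_eq_left h]
      have := le_max_left s 0
      linarith
  linarith

theorem W_cont : Continuous W := by
  unfold W
  refine Continuous.mul continuous_const ?_
  refine Continuous.log ?_ ?_
  · refine continuous_const.add (Continuous.log (by fun_prop) fun s => ?_)
    have := le_max_right s 0
    positivity
  · intro s
    have := log_one_nonneg (le_max_right s 0)
    positivity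

theorem W_tendsto : Tendsto W atTop atTop := by
  have h1 : Tendsto (fun s : ℝ => (1 / 2) * Real.log (1 + Real.log (1 + s))) atTop atTop := by
    refine Tendsto.const_mul_atTop (by norm_num) ?_
    exact Real.tendsto_log_atTop.comp (tendsto_atTop_add_const_left _ _
      (Real.tendsto_log_atTop.comp (tendsto_atTop_add_const_left _ _ tendsto_id)))
  refine h1.congr' ?_
  filter_upwards [eventually_ge_atTop 0] with s hs
  rw [W, max_eq_left hs]

/-- the set -/
def UU : Set (EN 2) := {x | W (x 1) ≤ |x 0|}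

theorem UU_closed : IsClosed UU :=
  isClosed_le (W_cont.comp (by fun_prop)) (by fun_prop)

/-- point with given coordinates -/
def pt (a b : ℝ) : EN 2 := !₂[a, b]

@[simp] theorem pt_zero (a b : ℝ) : pt a b 0 = a := rfl
@[simp] theorem pt_one (a b : ℝ) : pt a b 1 = b := rfl

theorem pt_eta (x : EN 2) : pt (x 0) (x 1) = x := by
  ext i
  fin_cases i <;> rfl

theorem pt_cont : Continuous fun q : ℝ × ℝ => pt q.1 q.2 := by
  unfold pt
  fun_prop

theorem norm_pt_sq (x : EN 2) : ‖x‖ ^ 2 = x 0 ^ 2 + x 1 ^ 2 := by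
  rw [EuclideanSpace.norm_sq_eq, Fin.sum_univ_two, Real.norm_eq_abs, Real.norm_eq_abs, sq_abs,
    sq_abs]

theorem abs_le_norm0 (x : EN 2) : |x 0| ≤ ‖x‖ := by
  have := norm_pt_sq x
  refine abs_le_of_sq_le_sq ?_ (norm_nonneg _)
  nlinarith [sq_nonneg (x 1)]

theorem abs_le_norm1 (x : EN 2) : |x 1| ≤ ‖x‖ := by
  have := norm_pt_sq x
  refine abs_le_of_sq_le_sq ?_ (norm_nonneg _)
  nlinarith [sq_nonneg (x 0)]

theorem UU_connected : IsConnected UU := by
  have hconv : IsPreconnected ((Ici (0 : ℝ)) ×ˢ (univ : Set ℝ)) :=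
    isPreconnected_Ici.prod isPreconnected_univ
  have hR : IsPreconnected {x : EN 2 | W (x 1) ≤ x 0} := by
    have h1 : {x : EN 2 | W (x 1) ≤ x 0} =
        (fun q : ℝ × ℝ => pt (q.1 + W q.2) q.2) '' ((Ici (0 : ℝ)) ×ˢ (univ : Set ℝ)) := by
      ext x
      constructor
      · intro hx
        refine ⟨(x 0 - W (x 1), x 1), ⟨by simpa using hx, mem_univ _⟩, ?_⟩
        simp only [sub_add_cancel]
        exact pt_eta x
      · rintro ⟨⟨a, b⟩, ⟨ha, _⟩, rfl⟩
        have ha' : (0 : ℝ) ≤ a := ha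
        show W b ≤ a + W b
        linarith
    rw [h1]
    refine hconv.image _ (Continuous.continuousOn ?_)
    exact pt_cont.comp ((continuous_fst.add (W_cont.comp continuous_snd)).prodMk continuous_snd)
  have hL : IsPreconnected {x : EN 2 | W (x 1) ≤ -x 0} := by
    have h1 : {x : EN 2 | W (x 1) ≤ -x 0} =
        (fun q : ℝ × ℝ => pt (-(q.1 + W q.2)) q.2) '' ((Ici (0 : ℝ)) ×ˢ (univ : Set ℝ)) := by
      ext x
      constructor
      · intro hx
        refine ⟨(-x 0 - W (x 1), x 1), ⟨by simpa using hx, mem_univ _⟩, ?_⟩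
        simp only [sub_add_cancel, neg_neg]
        exact pt_eta x
      · rintro ⟨⟨a, b⟩, ⟨ha, _⟩, rfl⟩
        have ha' : (0 : ℝ) ≤ a := ha
        show W b ≤ - -(a + W b)
        linarith
    rw [h1]
    refine hconv.image _ (Continuous.continuousOn ?_)
    exact pt_cont.comp ((continuous_fst.add (W_cont.comp continuous_snd)).neg.prodMk continuous_snd)
  have hU : UU = {x : EN 2 | W (x 1) ≤ x 0} ∪ {x : EN 2 | W (x 1) ≤ -x 0} := by
    ext x
    show W (x 1) ≤ |x 0| ↔ W (x 1) ≤ x 0 ∨ W (x 1) ≤ -x 0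
    exact le_abs
  have h0 : (0 : EN 2) ∈ {x : EN 2 | W (x 1) ≤ x 0} := by
    show W 0 ≤ 0
    rw [W_zero le_rfl]
  have h0' : (0 : EN 2) ∈ {x : EN 2 | W (x 1) ≤ -x 0} := by
    show W 0 ≤ -0
    rw [W_zero le_rfl, neg_zero]
  rw [hU]
  exact ⟨⟨0, Or.inl h0⟩, hR.union 0 h0 h0' hL⟩

theorem UU_ball {x : EN 2} (hx : x ∈ UU) : ∃ y : EN 2, dist x y ≤ 3 ∧ Metric.ball y 1 ⊆ UU := by
  have hx' : W (x 1) ≤ |x 0| := hx
  have aux : ∀ (σ : ℝ), σ = 1 ∨ σ = -1 → σ * x 0 = |x 0| →
      ∃ y : EN 2, dist x y ≤ 3 ∧ Metric.ball y 1 ⊆ UU := by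
    intro σ hσ hσx
    refine ⟨pt (x 0 + 3 * σ) (x 1), ?_, ?_⟩
    · rw [dist_eq_norm]
      refine abs_le_of_sq_le_sq' ?_ (by norm_num) |>.2
      rw [norm_pt_sq]
      have e0 : (x - pt (x 0 + 3 * σ) (x 1)) 0 = -3 * σ := by
        show x 0 - (x 0 + 3 * σ) = _
        ring
      have e1 : (x - pt (x 0 + 3 * σ) (x 1)) 1 = 0 := by
        show x 1 - x 1 = 0
        ring
      rw [e0, e1]
      rcases hσ with rfl | rfl <;> norm_num
    · intro z hz
      rw [Metric.mem_ball, dist_eq_norm] at hz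
      have e0 := abs_le_norm0 (z - pt (x 0 + 3 * σ) (x 1))
      have e1 := abs_le_norm1 (z - pt (x 0 + 3 * σ) (x 1))
      have e0' : |z 0 - (x 0 + 3 * σ)| < 1 := lt_of_le_of_lt e0 hz
      have e1' : |z 1 - x 1| < 1 := lt_of_le_of_lt e1 hz
      show W (z 1) ≤ |z 0|
      have h1 : W (z 1) ≤ W (x 1) + 1 / 2 := by
        rw [abs_lt] at e1'
        have h2 := W_lip (s := x 1) (t := x 1 + 1) (by linarith)
        have h3 := W_mono (show z 1 ≤ x 1 + 1 by linarith)
        linarith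
      rw [abs_lt] at e0'
      have h4 : |x 0| + 2 ≤ |z 0| := by
        rcases hσ with rfl | rfl
        · have : |x 0| = x 0 := by linarith
          rw [this]
          exact le_trans (by linarith) (le_abs_self _)
        · have : |x 0| = -x 0 := by linarith
          rw [this]
          exact le_trans (by linarith) (neg_le_abs _)
      linarith
  rcases le_total 0 (x 0) with h | h
  · exact aux 1 (Or.inl rfl) (by rw [abs_of_nonneg h]; ring)
  · exact aux (-1) (Or.inr rfl) (by rw [abs_of_nonpos h]; ring)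

theorem UU_condD : CondD UU := by
  refine ⟨1, one_pos, ?_⟩
  refine lt_of_le_of_lt (b := ENNReal.ofReal 3) ?_ ENNReal.ofReal_lt_top
  refine Metric.hausdorffEDist_le_of_mem_edist ?_ ?_
  · intro x hx
    obtain ⟨y, hy, hball⟩ := UU_ball hx
    refine ⟨y, ⟨hball (Metric.mem_ball_self one_pos), ?_⟩, ?_⟩
    · rw [Metric.le_infEDist]
      intro z hz
      by_contra hcon
      rw [not_le, edist_dist, ENNReal.ofReal_lt_ofReal_iff one_pos] at hcon
      have h1 : z ∈ interior UU :=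
        interior_mono hball (by rw [Metric.isOpen_ball.interior_eq, Metric.mem_ball, dist_comm]; exact hcon)
      exact hz.2 h1
    · rw [edist_dist]
      exact ENNReal.ofReal_le_ofReal hy
  · intro x hx
    exact ⟨x, hx.1, by simp⟩

theorem UU_nonempty : UU.Nonempty := UU_connected.nonempty

theorem dist_eq_pt (s : ℝ) (ξ : EN 2) : ‖pt 0 s - ξ‖ ^ 2 = ξ 0 ^ 2 + (s - ξ 1) ^ 2 := by
  rw [norm_pt_sq]
  have e0 : (pt 0 s - ξ) 0 = 0 - ξ 0 := rfl
  have e1 : (pt 0 s - ξ) 1 = s - ξ 1 := rfl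
  rw [e0, e1]
  ring

theorem UU_opening {R : ℝ} (hR : 0 < R) : ∃ x : EN 2, Metric.infEDist x UU = ENNReal.ofReal R ∧
    ((1 / 2 : ℝ) : EReal) ≤ opening UU x := by
  have hcont : Continuous fun s : ℝ => Metric.infDist (pt 0 s) UU :=
    (Metric.continuous_infDist_pt UU).comp (pt_cont.comp (continuous_const.prodMk continuous_id))
  have h0 : Metric.infDist (pt 0 0) UU = 0 := by
    refine Metric.infDist_zero_of_mem ?_
    show W 0 ≤ |0|
    rw [W_zero le_rfl, abs_zero]
  have hbig : ∃ s : ℝ, 0 ≤ s ∧ R ≤ Metric.infDist (pt 0 s) UU := by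
    obtain ⟨r, hr⟩ := (W_tendsto.eventually_gt_atTop R).exists_forall_of_atTop
    refine ⟨max r 0 + R, by positivity, ?_⟩
    rw [Metric.le_infDist UU_nonempty]
    intro ξ hξ
    by_contra hcon
    rw [not_le, dist_eq_norm] at hcon
    have h1 := dist_eq_pt (max r 0 + R) ξ
    have h2 : ‖pt 0 (max r 0 + R) - ξ‖ ^ 2 < R ^ 2 :=
      pow_lt_pow_left₀ hcon (norm_nonneg _) (by norm_num)
    rw [h1] at h2
    have h3 : |ξ 0| < R := abs_lt_of_sq_lt_sq (by nlinarith [sq_nonneg (max r 0 + R - ξ 1)]) hR.le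
    have h4 : |max r 0 + R - ξ 1| < R :=
      abs_lt_of_sq_lt_sq (by nlinarith [sq_nonneg (ξ 0)]) hR.le
    have h5 : r ≤ ξ 1 := by
      have := (abs_lt.1 h4).2
      linarith [le_max_left r 0]
    have h6 := hr (ξ 1) h5
    have h7 : W (ξ 1) ≤ |ξ 0| := hξ
    linarith
  obtain ⟨s1, hs1, hs1'⟩ := hbig
  obtain ⟨s, hs, hsR⟩ : R ∈ (fun s : ℝ => Metric.infDist (pt 0 s) UU) '' Icc 0 s1 :=
    intermediate_value_Icc hs1 hcont.continuousOn ⟨by simp only [h0]; exact hR.le, hs1'⟩
  have hsR' : Metric.infDist (pt 0 s) UU = R := hsR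
  have hne : Metric.infEDist (pt 0 s) UU ≠ ⊤ := Metric.infEDist_ne_top UU_nonempty
  have hW1 : (pt (W s) s) ∈ UU := by
    show W s ≤ |W s|
    exact le_abs_self _
  have hRW : R ≤ W s := by
    rw [← hsR']
    refine (Metric.infDist_le_dist_of_mem hW1).trans (le_of_eq ?_)
    rw [dist_eq_norm]
    have h1 := dist_eq_pt s (pt (W s) s)
    rw [pt_zero, pt_one, sub_self] at h1
    have h2 : ‖pt 0 s - pt (W s) s‖ ^ 2 = (W s) ^ 2 := by rw [h1]; ring
    exact (pow_left_inj₀ (norm_nonneg _) (W_nonneg s) (by norm_num)).1 h2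
  have hWs : W s ≤ s / 2 := by
    have := W_lip hs.1
    rw [W_zero le_rfl] at this
    linarith
  obtain ⟨ξ, hξ, hξd⟩ := UU_closed.exists_infDist_eq_dist UU_nonempty (pt 0 s)
  have hξR : ‖pt 0 s - ξ‖ = R := by rw [← dist_eq_norm, ← hξd, hsR']
  have hsq := dist_eq_pt s ξ
  rw [hξR] at hsq
  have hs1ξ : |s - ξ 1| ≤ R := abs_le_of_sq_le_sq (by nlinarith [sq_nonneg (ξ 0)]) hR.le
  have hξ0 : R / 2 ≤ |ξ 0| := by
    have h1 : W (ξ 1) ≤ |ξ 0| := hξ
    have h2 : W s - R / 2 ≤ W (ξ 1) := by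
      rcases le_total s (ξ 1) with h | h
      · have := W_mono h
        linarith
      · have := W_lip h
        have h3 := (abs_le.1 hs1ξ).2
        linarith
    linarith
  refine ⟨pt 0 s, ?_, ?_⟩
  · rw [← hsR', Metric.infDist, ENNReal.ofReal_toReal hne]
  · have hy : pt (-ξ 0) (ξ 1) ∈ UU \ {ξ} := by
      refine ⟨?_, ?_⟩
      · show W (ξ 1) ≤ |-ξ 0|
        rw [abs_neg]
        exact hξ
      · intro h
        have h1 : -ξ 0 = ξ 0 := congrArg (fun z : EN 2 => z 0) h
        have h2 : ξ 0 = 0 := by linarith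
        rw [h2, abs_zero] at hξ0
        linarith
    have hξp : ξ ∈ proj UU (pt 0 s) := by
      refine ⟨subset_closure hξ, ?_⟩
      rw [hξR, hsR']
    refine le_trans ?_ (le_iSup₂_of_le ξ hξp (le_iSup₂_of_le (pt (-ξ 0) (ξ 1)) hy le_rfl))
    rw [EReal.coe_le_coe_iff, real_inner_smul_left, real_inner_smul_right, hξR]
    have e1 : ‖pt (-ξ 0) (ξ 1) - ξ‖ = 2 * |ξ 0| := by
      have h1 := norm_pt_sq (pt (-ξ 0) (ξ 1) - ξ)
      have e0 : (pt (-ξ 0) (ξ 1) - ξ) 0 = -2 * ξ 0 := by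
        show -ξ 0 - ξ 0 = _
        ring
      have e1 : (pt (-ξ 0) (ξ 1) - ξ) 1 = 0 := by
        show ξ 1 - ξ 1 = 0
        ring
      rw [e0, e1] at h1
      have h2 : ‖pt (-ξ 0) (ξ 1) - ξ‖ ^ 2 = (2 * |ξ 0|) ^ 2 := by
        rw [h1, mul_pow 2 |ξ 0|, sq_abs]; ring
      exact (pow_left_inj₀ (norm_nonneg _) (by positivity) (by norm_num)).1 h2
    have e2 : ⟪pt 0 s - ξ, pt (-ξ 0) (ξ 1) - ξ⟫ = 2 * |ξ 0| ^ 2 := by
      rw [PiLp.inner_apply, Fin.sum_univ_two]
      have e0 : (pt (-ξ 0) (ξ 1) - ξ) 0 = -2 * ξ 0 := by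
        show -ξ 0 - ξ 0 = _
        ring
      have e1 : (pt (-ξ 0) (ξ 1) - ξ) 1 = 0 := by
        show ξ 1 - ξ 1 = 0
        ring
      have e3 : (pt 0 s - ξ) 0 = -ξ 0 := by
        show 0 - ξ 0 = _
        ring
      rw [e0, e1, e3, sq_abs]
      simp
      ring
    rw [e1, e2]
    have h5 : 0 < |ξ 0| := by linarith
    have : R⁻¹ * ((2 * |ξ 0|)⁻¹ * (2 * |ξ 0| ^ 2)) = |ξ 0| / R := by
      field_simp
    rw [this, le_div_iff₀ hR]
    linarith

theorem UU_not_condB : ¬ CondB UU := by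
  unfold CondB
  rw [not_le]
  have h1 : ((1 / 2 : ℝ) : EReal) ≤ limsup (fun R : ℝ =>
      ⨆ x ∈ {x : EN 2 | Metric.infEDist x UU = ENNReal.ofReal R}, opening UU x) atTop := by
    refine le_limsup_of_frequently_le (Filter.Eventually.frequently ?_)
    filter_upwards [eventually_gt_atTop 0] with R hR
    obtain ⟨x, hx1, hx2⟩ := UU_opening hR
    exact le_iSup₂_of_le x hx1 hx2
  refine lt_of_lt_of_le ?_ h1
  rw [← EReal.coe_zero, EReal.coe_lt_coe_iff]
  norm_num

end Pool.Agent.R962.KPP
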