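import Pool.Agent.R962.KPP.Defs

/-!
# The heat semigroup through the standard Gaussian measure
-/

namespace Pool.Agent.R962.KPP

open MeasureTheory Set Filter Topology ProbabilityTheory
open scoped ENNReal RealInnerProductSpace

variable {N : ℕ}

/-- the standard Gaussian measure -/
noncomputable abbrev Γ (N : ℕ) : Measure (EN N) := stdGaussian (EN N)

/-- the heat semigroup -/
noncomputable def H (t : ℝ) (φ : EN N → ℝ) (x : EN N) : ℝ := ∫ z, φ (x + √(2 * t) • z) ∂(Γ N)

/-- the heat kernel -/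
noncomputable def ker (N : ℕ) (t : ℝ) (y : EN N) : ℝ :=
  (4 * Real.pi * t) ^ (-(N : ℝ) / 2) * Real.exp (-(‖y‖ ^ 2 / (4 * t)))

theorem ker_pos {t : ℝ} (ht : 0 < t) (y : EN N) : 0 < ker N t y := by
  unfold ker
  have := Real.pi_pos
  positivity

theorem ker_meas (t : ℝ) : Measurable (ker N t) := by
  unfold ker
  fun_prop

theorem ker_integrable {t : ℝ} (ht : 0 < t) : Integrable (ker N t) := by
  unfold ker
  refine Integrable.const_mul ?_ _
  have h1 : Integrable fun v : EN N => Complex.exp (-(((4 * t)⁻¹ : ℝ) : ℂ) * ‖v‖ ^ 2 +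
      (0 : ℂ) * ((⟪(0 : EN N), v⟫ : ℝ) : ℂ)) :=
    GaussianFourier.integrable_cexp_neg_mul_sq_norm_add (by
      rw [Complex.ofReal_re]; positivity) 0 0
  have h2 := h1.re
  refine h2.congr (Filter.Eventually.of_forall fun v => ?_)
  show (Complex.exp _).re = _
  have : -(((4 * t)⁻¹ : ℝ) : ℂ) * ‖v‖ ^ 2 + (0 : ℂ) * ((⟪(0 : EN N), v⟫ : ℝ) : ℂ) =
      ((-(‖v‖ ^ 2 / (4 * t)) : ℝ) : ℂ) := by
    push_cast
    ring
  rw [this, ← Complex.ofReal_exp, Complex.ofReal_re]

theorem map_eq {t : ℝ} (ht : 0 < t) :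
    (Γ N).map (fun z => √(2 * t) • z) =
      volume.withDensity fun y => ENNReal.ofReal (ker N t y) := by
  have hfin : IsFiniteMeasure ((volume : Measure (EN N)).withDensity
      fun y => ENNReal.ofReal (ker N t y)) :=
    isFiniteMeasure_withDensity_ofReal (ker_integrable ht).2
  have hfin2 : IsFiniteMeasure ((Γ N).map (fun z => √(2 * t) • z)) :=
    Measure.isFiniteMeasure_map _ _
  refine Measure.ext_of_charFun ?_
  ext ξ
  rw [charFun_map_smul, charFun_stdGaussian, charFun_apply,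
    integral_withDensity_eq_integral_toReal_smul (ker_meas t).ennreal_ofReal (by simp)]
  have h1 : ∀ y : EN N, (ENNReal.ofReal (ker N t y)).toReal • Complex.exp (⟪y, ξ⟫ * Complex.I) =
      (((4 * Real.pi * t) ^ (-(N : ℝ) / 2) : ℝ) : ℂ) *
        Complex.exp (-(((4 * t)⁻¹ : ℝ) : ℂ) * ‖y‖ ^ 2 + Complex.I * (⟪ξ, y⟫ : ℝ)) := by
    intro y
    rw [ENNReal.toReal_ofReal (ker_pos ht y).le, Complex.real_smul, ker, Complex.ofReal_mul,
      mul_assoc, Complex.ofReal_exp, ← Complex.exp_add, real_inner_comm y ξ]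
    congr 2
    push_cast
    ring
  simp_rw [h1]
  rw [integral_const_mul, GaussianFourier.integral_cexp_neg_mul_sq_norm_add (by
    rw [Complex.ofReal_re]; positivity), finrank_euclideanSpace_fin, norm_smul,
    Real.norm_of_nonneg (Real.sqrt_nonneg _)]
  have hpos : 0 < 4 * Real.pi * t := by
    have := Real.pi_pos
    positivity
  have h2 : ((Real.pi : ℂ) / (((4 * t)⁻¹ : ℝ) : ℂ)) ^ ((N : ℂ) / 2) =
      (((4 * Real.pi * t) ^ ((N : ℝ) / 2) : ℝ) : ℂ) := by
    rw [Complex.ofReal_cpow hpos.le]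
    congr 1
    · push_cast
      have : (t : ℂ) ≠ 0 := by exact_mod_cast ht.ne'
      field_simp
    · push_cast
      ring
  rw [h2, ← mul_assoc, ← Complex.ofReal_mul, ← Real.rpow_add hpos]
  have h3 : -(N : ℝ) / 2 + (N : ℝ) / 2 = 0 := by ring
  rw [h3, Real.rpow_zero, Complex.ofReal_one, one_mul]
  congr 1
  have h4 : ((√(2 * t) : ℝ) : ℂ) ^ 2 = 2 * t := by
    rw [← Complex.ofReal_pow, Real.sq_sqrt (by positivity)]
    push_cast
    ring
  rw [Complex.I_sq]
  push_cast
  rw [mul_pow, h4]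
  have : (t : ℂ) ≠ 0 := by exact_mod_cast ht.ne'
  field_simp

theorem heat_eq {t : ℝ} (ht : 0 < t) (φ : EN N → ℝ) (x : EN N) : heat N t φ x = H t φ x := by
  have h1 : H t φ x = ∫ y, φ (x + y) ∂((Γ N).map (fun z => √(2 * t) • z)) := by
    have hne : √(2 * t) ≠ 0 := (Real.sqrt_pos.2 (by positivity)).ne'
    have hemb : MeasurableEmbedding (fun z : EN N => √(2 * t) • z) :=
      (Homeomorph.smulOfNeZero _ hne).measurableEmbedding
    rw [hemb.integral_map]
    rfl
  rw [h1, map_eq ht, integral_withDensity_eq_integral_toReal_smul (ker_meas t).ennreal_ofReal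
    (by simp)]
  have h2 : ∀ y : EN N, (ENNReal.ofReal (ker N t y)).toReal • φ (x + y) =
      ker N t y * φ (x + y) := by
    intro y
    rw [ENNReal.toReal_ofReal (ker_pos ht y).le, smul_eq_mul]
  simp_rw [h2]
  unfold heat
  rw [← integral_add_left_eq_self _ x]
  refine integral_congr_ae (Filter.Eventually.of_forall fun y => ?_)
  simp only [ker]
  rw [show x - (x + y) = -y by abel, norm_neg]

theorem H_zero (φ : EN N → ℝ) (x : EN N) : H 0 φ x = φ x := by
  simp [H]

theorem H_const (t c : ℝ) (x : EN N) : H t (fun _ => c) x = c := by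
  simp [H]

theorem meas_comp {φ : EN N → ℝ} (hφ : Measurable φ) (t : ℝ) (x : EN N) :
    Measurable fun z : EN N => φ (x + √(2 * t) • z) := by
  fun_prop

/-- bounded measurable functions are integrable -/
theorem int_comp {φ : EN N → ℝ} (hφ : Measurable φ) {C : ℝ} (hC : ∀ x, |φ x| ≤ C) (t : ℝ)
    (x : EN N) : Integrable (fun z : EN N => φ (x + √(2 * t) • z)) (Γ N) :=
  Integrable.of_bound (meas_comp hφ t x).aestronglyMeasurable C
    (Filter.Eventually.of_forall fun z => by rw [Real.norm_eq_abs]; exact hC _)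

theorem H_abs_le {φ : EN N → ℝ} {C : ℝ} (hC : ∀ x, |φ x| ≤ C) (t : ℝ)
    (x : EN N) : |H t φ x| ≤ C := by
  have := norm_integral_le_of_norm_le_const (μ := Γ N) (f := fun z => φ (x + √(2 * t) • z))
    (C := C) (Filter.Eventually.of_forall fun z => by rw [Real.norm_eq_abs]; exact hC _)
  simpa [H] using this

theorem H_nonneg {φ : EN N → ℝ} (h : ∀ x, 0 ≤ φ x) (t : ℝ) (x : EN N) : 0 ≤ H t φ x :=
  integral_nonneg fun _ => h _

theorem H_mono {φ ψ : EN N → ℝ} (hφ : Measurable φ) (hψ : Measurable ψ) {C C' : ℝ}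
    (hC : ∀ x, |φ x| ≤ C) (hC' : ∀ x, |ψ x| ≤ C') (h : ∀ x, φ x ≤ ψ x) (t : ℝ) (x : EN N) :
    H t φ x ≤ H t ψ x :=
  integral_mono (int_comp hφ hC t x) (int_comp hψ hC' t x) fun _ => h _

theorem H_add {φ ψ : EN N → ℝ} (hφ : Measurable φ) (hψ : Measurable ψ) {C C' : ℝ}
    (hC : ∀ x, |φ x| ≤ C) (hC' : ∀ x, |ψ x| ≤ C') (t : ℝ) (x : EN N) :
    H t (fun y => φ y + ψ y) x = H t φ x + H t ψ x :=
  integral_add (int_comp hφ hC t x) (int_comp hψ hC' t x)

theorem H_sub {φ ψ : EN N → ℝ} (hφ : Measurable φ) (hψ : Measurable ψ) {C C' : ℝ}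
    (hC : ∀ x, |φ x| ≤ C) (hC' : ∀ x, |ψ x| ≤ C') (t : ℝ) (x : EN N) :
    H t (fun y => φ y - ψ y) x = H t φ x - H t ψ x :=
  integral_sub (int_comp hφ hC t x) (int_comp hψ hC' t x)

theorem H_smul (c : ℝ) (φ : EN N → ℝ) (t : ℝ) (x : EN N) :
    H t (fun y => c * φ y) x = c * H t φ x :=
  integral_const_mul _ _

theorem H_shift (φ : EN N → ℝ) (h : EN N) (t : ℝ) (x : EN N) :
    H t (fun y => φ (y + h)) x = H t φ (x + h) := by
  unfold H
  refine integral_congr_ae (Filter.Eventually.of_forall fun z => ?_)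
  simp only
  congr 1
  abel

/-- the semigroup property -/
theorem H_H {φ : EN N → ℝ} (hφ : Measurable φ) {C : ℝ} (hC : ∀ x, |φ x| ≤ C) {s t : ℝ}
    (hs : 0 ≤ s) (ht : 0 ≤ t) (x : EN N) : H s (H t φ) x = H (s + t) φ x := by
  have hm : ∀ r : ℝ, Measurable fun z : EN N => √(2 * r) • z := fun r => by fun_prop
  have hp : ∀ r : ℝ, IsProbabilityMeasure ((Γ N).map (fun z => √(2 * r) • z)) := fun r =>
    Measure.isProbabilityMeasure_map (hm r).aemeasurable
  have hr : ∀ (r : ℝ) (ψ : EN N → ℝ), Measurable ψ → ∀ x, H r ψ x =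
      ∫ y, ψ (x + y) ∂((Γ N).map (fun z => √(2 * r) • z)) := by
    intro r ψ hψ x
    have hψ' : AEStronglyMeasurable (fun y => ψ (x + y))
        ((Γ N).map (fun z => √(2 * r) • z)) :=
      (hψ.comp (measurable_const_add x)).aestronglyMeasurable
    rw [integral_map (hm r).aemeasurable hψ']
    rfl
  have hconv : ((Γ N).map (fun z => √(2 * s) • z)) ∗ ((Γ N).map (fun z => √(2 * t) • z)) =
      (Γ N).map (fun z => √(2 * (s + t)) • z) := by
    have h1 := hp s
    have h2 := hp t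
    have h3 := hp (s + t)
    refine Measure.ext_of_charFun ?_
    ext ξ
    rw [charFun_conv, charFun_map_smul, charFun_map_smul, charFun_map_smul, charFun_stdGaussian,
      charFun_stdGaussian, charFun_stdGaussian, ← Complex.exp_add]
    congr 1
    have h4 : ∀ r : ℝ, 0 ≤ r → ((‖√(2 * r) • ξ‖ : ℝ) : ℂ) ^ 2 = 2 * r * (‖ξ‖ : ℂ) ^ 2 := by
      intro r hr
      rw [norm_smul, Real.norm_of_nonneg (Real.sqrt_nonneg _), Complex.ofReal_mul, mul_pow,
        ← Complex.ofReal_pow, Real.sq_sqrt (by positivity)]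
      push_cast
      ring
    rw [h4 s hs, h4 t ht, h4 (s + t) (by positivity)]
    push_cast
    ring
  have hHm : Measurable (H t φ) := by
    have h5 : StronglyMeasurable fun q : EN N × EN N => φ (q.1 + √(2 * t) • q.2) :=
      (by fun_prop : Measurable fun q : EN N × EN N => φ (q.1 + √(2 * t) • q.2)).stronglyMeasurable
    exact (h5.integral_prod_right (ν := Γ N)).measurable
  rw [hr s _ hHm, hr (s + t) φ hφ, ← hconv]
  have h1 := hp s
  have h2 := hp t
  rw [integral_conv]
  · refine integral_congr_ae (Filter.Eventually.of_forall fun y => ?_)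
    simp only
    rw [hr t φ hφ]
    refine integral_congr_ae (Filter.Eventually.of_forall fun y' => ?_)
    simp only
    rw [add_assoc]
  · exact Integrable.of_bound (hφ.comp (measurable_const_add x)).aestronglyMeasurable C
      (Filter.Eventually.of_forall fun z => by rw [Real.norm_eq_abs]; exact hC _)

/-- joint measurability -/
theorem H_meas {X : Type*} [MeasurableSpace X] {τ : X → ℝ} {ξ : X → EN N}
    {F : X → EN N → ℝ} (hτ : Measurable τ) (hξ : Measurable ξ)
    (hF : Measurable fun q : X × EN N => F q.1 q.2) :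
    Measurable fun a : X => H (τ a) (F a) (ξ a) := by
  have h5 : StronglyMeasurable fun q : X × EN N => F q.1 (ξ q.1 + √(2 * τ q.1) • q.2) := by
    refine Measurable.stronglyMeasurable ?_
    have h6 : Measurable fun q : X × EN N => (q.1, ξ q.1 + √(2 * τ q.1) • q.2) := by fun_prop
    exact hF.comp h6
  exact (h5.integral_prod_right (ν := Γ N)).measurable

end Pool.Agent.R962.KPP
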