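import Pool.Agent.R962.KPP.Heat

/-!
# Mild solutions: Fubini, restart, Gronwall
-/

namespace Pool.Agent.R962.KPP

open MeasureTheory Set Filter Topology ProbabilityTheory
open scoped ENNReal RealInnerProductSpace

variable {N : ℕ}

/-- bounded jointly measurable functions -/
structure BM (h : ℝ → EN N → ℝ) (C : ℝ) : Prop where
  meas : Measurable fun q : ℝ × EN N => h q.1 q.2
  bd : ∀ t x, |h t x| ≤ C

theorem BM.meas' {h : ℝ → EN N → ℝ} {C : ℝ} (hh : BM h C) (t : ℝ) : Measurable (h t) :=
  hh.meas.comp (measurable_const.prodMk measurable_id)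

theorem BM.Hmeas {h : ℝ → EN N → ℝ} {C : ℝ} (hh : BM h C) (t : ℝ) (x : EN N) :
    Measurable fun s : ℝ => H (t - s) (h s) x :=
  H_meas (X := ℝ) (τ := fun s => t - s) (ξ := fun _ => x) (F := h) (by fun_prop)
    measurable_const hh.meas

theorem BM.int {h : ℝ → EN N → ℝ} {C : ℝ} (hh : BM h C) (t : ℝ) (x : EN N) {k : ℝ → ℝ}
    (hk : Measurable k) {K a b : ℝ} (hK : ∀ s ∈ Ioc a b, |k s| ≤ K) :
    IntegrableOn (fun s : ℝ => k s * H (t - s) (h s) x) (Ioc a b) := by
  have hfin : IsFiniteMeasure (volume.restrict (Ioc a b)) := ⟨by simp⟩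
  refine Integrable.of_bound (hk.mul (hh.Hmeas t x)).aestronglyMeasurable (K * C) ?_
  refine (ae_restrict_iff' measurableSet_Ioc).2 (Filter.Eventually.of_forall fun s hs => ?_)
  rw [Real.norm_eq_abs, abs_mul]
  exact mul_le_mul (hK s hs) (H_abs_le (hh.bd s) _ _) (abs_nonneg _)
    ((abs_nonneg _).trans (hK s hs))

theorem BM.int1 {h : ℝ → EN N → ℝ} {C : ℝ} (hh : BM h C) (t : ℝ) (x : EN N) (a b : ℝ) :
    IntegrableOn (fun s : ℝ => H (t - s) (h s) x) (Ioc a b) := by
  have := hh.int t x (k := fun _ => 1) measurable_const (K := 1) (a := a) (b := b)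
    (fun s _ => by simp)
  simpa using this

/-- Fubini's theorem for Duhamel terms -/
theorem fub {h : ℝ → EN N → ℝ} {C : ℝ} (hh : BM h C) {k : ℝ → ℝ} (hk : Measurable k)
    {K s t : ℝ} (hK : ∀ r ∈ Ioc 0 s, |k r| ≤ K) (hst : s ≤ t) (x : EN N) :
    H (t - s) (fun y => ∫ r in Ioc 0 s, k r * H (s - r) (h r) y) x =
      ∫ r in Ioc 0 s, k r * H (t - r) (h r) x := by
  have hfin : IsFiniteMeasure (volume.restrict (Ioc (0 : ℝ) s)) := ⟨by simp⟩
  have hm : Measurable fun q : EN N × ℝ =>
      k q.2 * H (s - q.2) (h q.2) (x + √(2 * (t - s)) • q.1) := by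
    refine (hk.comp measurable_snd).mul ?_
    refine H_meas (X := EN N × ℝ) (τ := fun q => s - q.2)
      (ξ := fun q => x + √(2 * (t - s)) • q.1) (F := fun q => h q.2) (by fun_prop)
      (by fun_prop) ?_
    exact hh.meas.comp (by fun_prop : Measurable fun q : (EN N × ℝ) × EN N => (q.1.2, q.2))
  have hb : ∀ r ∈ Ioc 0 s, ∀ y, |k r * H (s - r) (h r) y| ≤ K * C := by
    intro r hr y
    rw [abs_mul]
    exact mul_le_mul (hK r hr) (H_abs_le (hh.bd r) _ _) (abs_nonneg _)
      ((abs_nonneg _).trans (hK r hr))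
  unfold H at *
  rw [integral_integral_swap]
  · refine setIntegral_congr_fun measurableSet_Ioc fun r hr => ?_
    beta_reduce
    rw [integral_const_mul]
    congr 1
    have h1 := H_H (hh.meas' r) (hh.bd r) (s := t - s) (t := s - r) (by linarith)
      (by linarith [hr.2]) x
    unfold H at h1
    rw [h1]
    congr 4
    ring
  · refine Integrable.of_bound hm.aestronglyMeasurable (K * C) ?_
    have hae : ∀ᵐ q ∂((Γ N).prod (volume.restrict (Ioc (0 : ℝ) s))), q.2 ∈ Ioc 0 s :=
      Measure.quasiMeasurePreserving_snd.ae (ae_restrict_mem measurableSet_Ioc)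
    filter_upwards [hae] with q hq
    rw [Real.norm_eq_abs]
    exact hb q.2 hq _

/-- Mild solutions of `∂_t u = Δu + u(1-u)`. -/
structure Mild (φ : EN N → ℝ) (u : ℝ → EN N → ℝ) : Prop where
  measφ : Measurable φ
  memφ : ∀ x, φ x ∈ Icc (0 : ℝ) 1
  meas : Measurable fun q : ℝ × EN N => u q.1 q.2
  mem : ∀ t x, u t x ∈ Icc (0 : ℝ) 1
  eq : ∀ t, 0 ≤ t → ∀ x, u t x = H t φ x +
    ∫ s in Ioc 0 t, H (t - s) (fun y => u s y * (1 - u s y)) x

section mild

variable {φ : EN N → ℝ} {u : ℝ → EN N → ℝ} (h : Mild φ u)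

theorem abs_le_one {a : ℝ} (ha : a ∈ Icc (0 : ℝ) 1) : |a| ≤ 1 :=
  abs_le.2 ⟨by linarith [ha.1], ha.2⟩

include h

theorem Mild.absφ (x : EN N) : |φ x| ≤ 1 := abs_le_one (h.memφ x)

theorem Mild.bm : BM u 1 := ⟨h.meas, fun t x => abs_le_one (h.mem t x)⟩

theorem Mild.F_mem (t : ℝ) (x : EN N) : u t x * (1 - u t x) ∈ Icc (0 : ℝ) 1 := by
  obtain ⟨h0, h1⟩ := h.mem t x
  exact ⟨mul_nonneg h0 (by linarith), by nlinarith⟩

theorem Mild.bmF : BM (fun s y => u s y * (1 - u s y)) 1 :=
  ⟨h.meas.mul (measurable_const.sub h.meas), fun t x => abs_le_one (h.F_mem t x)⟩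

/-- the solution dominates the heat flow -/
theorem Mild.ge_heat {t : ℝ} (ht : 0 ≤ t) (x : EN N) : H t φ x ≤ u t x := by
  rw [h.eq t ht x]
  refine le_add_of_nonneg_right (integral_nonneg fun s => ?_)
  exact H_nonneg (fun y => (h.F_mem s y).1) _ _

/-- restart inequality -/
theorem Mild.restart {s t : ℝ} (hs : 0 ≤ s) (hst : s ≤ t) (x : EN N) :
    H (t - s) (u s) x ≤ u t x := by
  have h1 : u s = fun y => H s φ y +
      ∫ r in Ioc 0 s, 1 * H (s - r) (fun y => u r y * (1 - u r y)) y := by
    funext y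
    rw [h.eq s hs y]
    simp
  have hm : Measurable (H s φ) := by
    exact H_meas (X := EN N) (τ := fun _ => s) (ξ := fun y => y) (F := fun _ => φ)
      measurable_const measurable_id (h.measφ.comp measurable_snd)
  have hb : ∀ y, |H s φ y| ≤ 1 := fun y => H_abs_le h.absφ _ _
  have e2 : (fun y => ∫ r in Ioc 0 s, 1 * H (s - r) (fun y => u r y * (1 - u r y)) y) =
      fun y => u s y - H s φ y := by
    funext y
    rw [h.eq s hs y]
    simp
  have hm2 : Measurable fun y =>
      ∫ r in Ioc 0 s, 1 * H (s - r) (fun y => u r y * (1 - u r y)) y := by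
    rw [e2]
    exact (h.bm.meas' s).sub hm
  have hb2 : ∀ y, |∫ r in Ioc 0 s, 1 * H (s - r) (fun y => u r y * (1 - u r y)) y| ≤ 1 + 1 := by
    intro y
    have := congrFun e2 y
    beta_reduce at this
    rw [this]
    exact (abs_sub _ _).trans (add_le_add (abs_le_one (h.mem s y)) (hb y))
  rw [h1, H_add hm hm2 hb hb2, H_H h.measφ h.absφ (by linarith) hs,
    fub h.bmF measurable_const (K := 1) (fun _ _ => by simp) hst, h.eq t (hs.trans hst) x]
  simp only [one_mul]
  have h3 : t - s + s = t := by ring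
  rw [h3]
  refine add_le_add le_rfl ?_
  refine setIntegral_mono_set (h.bmF.int1 t x 0 t) ?_ ?_
  · exact Filter.Eventually.of_forall fun r => H_nonneg (fun y => (h.F_mem r y).1) _ _
  · exact (Ioc_subset_Ioc_right hst).eventuallyLE

/-- the integral of the reaction term along heat paths is at most one -/
theorem Mild.int_le {a t : ℝ} (ha : 0 ≤ a) (hat : a ≤ t) (x : EN N) :
    ∫ s in Ioc a t, H (t - s) (fun y => u s y * (1 - u s y)) x ≤ 1 := by
  have h1 : ∫ s in Ioc a t, H (t - s) (fun y => u s y * (1 - u s y)) x ≤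
      ∫ s in Ioc 0 t, H (t - s) (fun y => u s y * (1 - u s y)) x := by
    refine setIntegral_mono_set (h.bmF.int1 t x 0 t) ?_ ?_
    · exact Filter.Eventually.of_forall fun r => H_nonneg (fun y => (h.F_mem r y).1) _ _
    · exact (Ioc_subset_Ioc_left ha).eventuallyLE
  have h2 := h.eq t (ha.trans hat) x
  have h3 := (h.mem t x).2
  have h4 : 0 ≤ H t φ x := H_nonneg (fun y => (h.memφ y).1) _ _
  linarith

/-- **Invasion lemma.** -/
theorem Mild.inv {m S R t : ℝ} (hm : 0 < m) (hS : 0 < S) (hSt : S ≤ t) (x : EN N)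
    (hu : ∀ s ∈ Ioc (t - S) t, ∀ y, ‖y - x‖ ≤ R → m ≤ u s y) :
    1 - u t x ≤ 1 / (m * S) + (Γ N).real {z | R < √(2 * S) * ‖z‖} := by
  set τ := (Γ N).real {z : EN N | R < √(2 * S) * ‖z‖} with hτ
  have key : ∀ s ∈ Ioc (t - S) t, 1 - u t x ≤
      (1 / m) * H (t - s) (fun y => u s y * (1 - u s y)) x + τ := by
    intro s hs
    have hs0 : 0 ≤ s := by linarith [hs.1]
    have h1 := h.restart hs0 hs.2 x
    have h2 : H (t - s) (fun y => 1 - u s y) x = 1 - H (t - s) (u s) x := by
      rw [H_sub (C := 1) (C' := 1) measurable_const (h.bm.meas' s) (by simp) (h.bm.bd s), H_const]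
    have h3 : H (t - s) (fun y => 1 - u s y) x ≤
        (1 / m) * H (t - s) (fun y => u s y * (1 - u s y)) x + τ := by
      set Q : Set (EN N) := {z | R < √(2 * S) * ‖z‖} with hQ
      have hQm : MeasurableSet Q := by
        refine measurableSet_lt measurable_const ?_
        fun_prop
      have h4 : τ = ∫ z, Q.indicator (fun _ => (1 : ℝ)) z ∂(Γ N) := by
        rw [integral_indicator_const _ hQm, smul_eq_mul, mul_one]
      rw [h4, ← H_smul]
      unfold H
      rw [← integral_add]
      · refine integral_mono ?_ ?_ ?_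
        · refine int_comp (φ := fun y => 1 - u s y) (C := 1)
            (measurable_const.sub (h.bm.meas' s)) (fun y => ?_) _ _
          exact abs_le_one ⟨by linarith [(h.mem s y).2], by linarith [(h.mem s y).1]⟩
        · refine Integrable.add ?_ ?_
          · refine int_comp (C := |1 / m|) ((h.bmF.meas' s).const_mul _) (fun y => ?_) _ _
            rw [abs_mul]
            exact mul_le_of_le_one_right (abs_nonneg _) (h.bmF.bd s y)
          · exact (integrable_const (1 : ℝ)).indicator hQm
        · intro z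
          simp only
          set y := x + √(2 * (t - s)) • z with hy
          obtain ⟨hy0, hy1⟩ := h.mem s y
          by_cases hz : z ∈ Q
          · rw [Set.indicator_of_mem hz]
            have : 0 ≤ 1 / m * (u s y * (1 - u s y)) :=
              mul_nonneg (by positivity) (h.F_mem s y).1
            linarith
          · rw [Set.indicator_of_notMem hz, add_zero]
            have h5 : ‖y - x‖ ≤ R := by
              rw [hy, add_sub_cancel_left, norm_smul, Real.norm_of_nonneg (Real.sqrt_nonneg _)]
              have h6 : √(2 * S) * ‖z‖ ≤ R := not_lt.1 hz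
              refine le_trans (mul_le_mul_of_nonneg_right (Real.sqrt_le_sqrt ?_)
                (norm_nonneg _)) h6
              linarith [hs.1]
            have h7 := hu s hs y h5
            rw [← mul_assoc, div_mul_eq_mul_div, one_mul]
            refine le_mul_of_one_le_left (by linarith) ?_
            rwa [one_le_div hm]
      · refine int_comp (C := |1 / m|) ((h.bmF.meas' s).const_mul _) (fun y => ?_) _ _
        rw [abs_mul]
        exact mul_le_of_le_one_right (abs_nonneg _) (h.bmF.bd s y)
      · exact (integrable_const (1 : ℝ)).indicator hQm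
    linarith
  have hfin : IsFiniteMeasure (volume.restrict (Ioc (t - S) t)) := ⟨by simp⟩
  have h1 : ∫ _s in Ioc (t - S) t, (1 - u t x) ≤ ∫ s in Ioc (t - S) t,
      ((1 / m) * H (t - s) (fun y => u s y * (1 - u s y)) x + τ) := by
    refine setIntegral_mono_on (integrable_const _) ?_ measurableSet_Ioc key
    exact ((h.bmF.int1 t x _ _).const_mul _).add (integrable_const _)
  rw [integral_add ((h.bmF.int1 t x _ _).const_mul _) (integrable_const _), integral_const_mul,
    setIntegral_const, setIntegral_const, Real.volume_real_Ioc_of_le (by linarith)] at h1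
  have h2 := h.int_le (a := t - S) (t := t) (by linarith) (by linarith) x
  have h3 : t - (t - S) = S := by ring
  rw [h3, smul_eq_mul, smul_eq_mul] at h1
  have h4 : (1 / m) * ∫ s in Ioc (t - S) t, H (t - s) (fun y => u s y * (1 - u s y)) x ≤ 1 / m :=
    mul_le_of_le_one_right (by positivity) h2
  have h5 : S * (1 - u t x) ≤ S * (1 / (m * S) + τ) := by
    have : S * (1 / (m * S) + τ) = 1 / m + S * τ := by
      field_simp
    rw [this]
    linarith
  exact le_of_mul_le_mul_left h5 hS

end mild

/-- **Gronwall's lemma for heat averages.** -/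
theorem gronwall {D : ℝ → EN N → ℝ} {D0 : EN N → ℝ} (hD : BM D 1) (hD0 : Measurable D0)
    (hb : ∀ x, D0 x ∈ Icc (0 : ℝ) 1)
    (h : ∀ t, 0 ≤ t → ∀ x, D t x ≤ H t D0 x + ∫ s in Ioc 0 t, H (t - s) (D s) x) :
    ∀ t, 0 ≤ t → ∀ x, D t x ≤ Real.exp t * H t D0 x := by
  have hb' : ∀ x, |D0 x| ≤ 1 := fun x => abs_le_one (hb x)
  have key : ∀ n : ℕ, ∀ t, 0 ≤ t → ∀ x,
      D t x ≤ Real.exp t * H t D0 x + t ^ n / (Nat.factorial n : ℝ) := by
    intro n
    induction n with
    | zero =>
      intro t _ x
      have h1 : 0 ≤ H t D0 x := H_nonneg (fun y => (hb y).1) _ _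
      have h2 := (abs_le.1 (hD.bd t x)).2
      have h3 : 0 ≤ Real.exp t * H t D0 x := by positivity
      simp only [pow_zero, Nat.factorial_zero, Nat.cast_one, div_one]
      linarith
    | succ n ih =>
      intro t ht x
      have h1 : ∫ s in Ioc 0 t, H (t - s) (D s) x ≤
          ∫ s in Ioc 0 t, (Real.exp s * H t D0 x + s ^ n / (Nat.factorial n : ℝ)) := by
        refine setIntegral_mono_on (hD.int1 t x 0 t) ?_ measurableSet_Ioc ?_
        · exact (by fun_prop : Continuous fun s : ℝ =>
            Real.exp s * H t D0 x + s ^ n / (Nat.factorial n : ℝ)).continuousOn.integrableOn_Icc.mono_set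
            Ioc_subset_Icc_self
        · intro s hs
          have hm : Measurable (H s D0) :=
            H_meas (X := EN N) (τ := fun _ => s) (ξ := fun y => y) (F := fun _ => D0)
              measurable_const measurable_id (hD0.comp measurable_snd)
          have hbs : ∀ y, |H s D0 y| ≤ 1 := fun y => H_abs_le hb' _ _
          have h2 : H (t - s) (fun y => Real.exp s * H s D0 y + s ^ n / (Nat.factorial n : ℝ)) x =
              Real.exp s * H t D0 x + s ^ n / (Nat.factorial n : ℝ) := by
            rw [H_add (C := Real.exp s) (C' := |s ^ n / (Nat.factorial n : ℝ)|)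
              (hm.const_mul _) measurable_const ?_ (fun _ => le_rfl), H_const, H_smul,
              H_H hD0 hb' (by linarith [hs.2]) hs.1.le]
            · congr 4
              ring
            · intro y
              rw [abs_mul, Real.abs_exp]
              exact mul_le_of_le_one_right (Real.exp_pos _).le (hbs y)
          rw [← h2]
          refine H_mono (C := 1) (C' := Real.exp s + |s ^ n / (Nat.factorial n : ℝ)|)
            (hD.meas' s) ((hm.const_mul _).add_const _) (hD.bd s) ?_ (ih s hs.1.le) _ _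
          intro y
          refine (abs_add_le _ _).trans (add_le_add ?_ le_rfl)
          rw [abs_mul, Real.abs_exp]
          exact mul_le_of_le_one_right (Real.exp_pos _).le (hbs y)
      have h2 : ∫ s in Ioc 0 t, (Real.exp s * H t D0 x + s ^ n / (Nat.factorial n : ℝ)) =
          (Real.exp t - 1) * H t D0 x + t ^ (n + 1) / (Nat.factorial (n + 1) : ℝ) := by
        rw [← intervalIntegral.integral_of_le ht, intervalIntegral.integral_add
          ((by fun_prop : Continuous fun s : ℝ => Real.exp s * H t D0 x).intervalIntegrable _ _)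
          ((by fun_prop : Continuous fun s : ℝ =>
            s ^ n / (Nat.factorial n : ℝ)).intervalIntegrable _ _),
          intervalIntegral.integral_mul_const, integral_exp, intervalIntegral.integral_div,
          integral_pow, Real.exp_zero, Nat.factorial_succ]
        push_cast
        have : (n.factorial : ℝ) ≠ 0 := by positivity
        have : (n : ℝ) + 1 ≠ 0 := by positivity
        field_simp
        ring
      have h3 := h t ht x
      rw [h2] at h1
      linarith
  intro t ht x
  have hlim := FloorSemiring.tendsto_pow_div_factorial_atTop t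
  have h1 : Tendsto (fun n : ℕ => Real.exp t * H t D0 x + t ^ n / (Nat.factorial n : ℝ)) atTop
      (𝓝 (Real.exp t * H t D0 x + 0)) := hlim.const_add _
  rw [add_zero] at h1
  exact ge_of_tendsto' h1 fun n => key n t ht x

theorem F_lip {a b : ℝ} (ha : a ∈ Icc (0 : ℝ) 1) (hb : b ∈ Icc (0 : ℝ) 1) :
    |a * (1 - a) - b * (1 - b)| ≤ |a - b| := by
  have : a * (1 - a) - b * (1 - b) = (a - b) * (1 - a - b) := by ring
  rw [this, abs_mul]
  refine mul_le_of_le_one_right (abs_nonneg _) ?_
  rw [abs_le]
  constructor <;> linarith [ha.1, ha.2, hb.1, hb.2]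

/-- **Locality / continuous dependence.** -/
theorem local_le {φ ψ : EN N → ℝ} {u v : ℝ → EN N → ℝ} (hu : Mild φ u) (hv : Mild ψ v) (t : ℝ)
    (ht : 0 ≤ t) (x : EN N) :
    |u t x - v t x| ≤ Real.exp t * H t (fun y => |φ y - ψ y|) x := by
  have hdm : ∀ {a b : ℝ}, a ∈ Icc (0 : ℝ) 1 → b ∈ Icc (0 : ℝ) 1 → |a - b| ∈ Icc (0 : ℝ) 1 :=
    fun {a b} ha hb => ⟨abs_nonneg _, abs_le.2 ⟨by linarith [ha.1, hb.2], by linarith [ha.2, hb.1]⟩⟩
  have hDm : Measurable fun q : ℝ × EN N => |u q.1 q.2 - v q.1 q.2| := by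
    have := (hu.meas.sub hv.meas)
    exact (continuous_abs.measurable).comp this
  refine gronwall (D := fun t x => |u t x - v t x|) (D0 := fun y => |φ y - ψ y|) ⟨hDm, ?_⟩ ?_ ?_ ?_
    t ht x
  · intro t x
    exact abs_le_one (hdm (hu.mem t x) (hv.mem t x))
  · exact (continuous_abs.measurable).comp (hu.measφ.sub hv.measφ)
  · intro x
    exact hdm (hu.memφ x) (hv.memφ x)
  · intro t ht x
    rw [hu.eq t ht x, hv.eq t ht x]
    have h1 : H t φ x + (∫ s in Ioc 0 t, H (t - s) (fun y => u s y * (1 - u s y)) x) -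
        (H t ψ x + ∫ s in Ioc 0 t, H (t - s) (fun y => v s y * (1 - v s y)) x) =
        H t (fun y => φ y - ψ y) x + ∫ s in Ioc 0 t,
          H (t - s) (fun y => u s y * (1 - u s y) - v s y * (1 - v s y)) x := by
      rw [H_sub hu.measφ hv.measφ hu.absφ hv.absφ]
      have : ∀ s, H (t - s) (fun y => u s y * (1 - u s y) - v s y * (1 - v s y)) x =
          H (t - s) (fun y => u s y * (1 - u s y)) x - H (t - s) (fun y => v s y * (1 - v s y)) x :=
        fun s => H_sub (hu.bmF.meas' s) (hv.bmF.meas' s) (hu.bmF.bd s) (hv.bmF.bd s) _ _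
      simp_rw [this]
      rw [integral_sub (hu.bmF.int1 t x 0 t) (hv.bmF.int1 t x 0 t)]
      ring
    rw [h1]
    refine (abs_add_le _ _).trans (add_le_add ?_ ?_)
    · exact abs_integral_le_integral_abs
    · refine abs_integral_le_integral_abs.trans ?_
      have hdm' : BM (fun s y => |u s y - v s y|) 1 :=
        ⟨hDm, fun t x => abs_le_one (hdm (hu.mem t x) (hv.mem t x))⟩
      have hbm : BM (fun s y => u s y * (1 - u s y) - v s y * (1 - v s y)) (1 + 1) :=
        ⟨hu.bmF.meas.sub hv.bmF.meas, fun t x => (abs_sub _ _).trans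
          (add_le_add (hu.bmF.bd t x) (hv.bmF.bd t x))⟩
      refine setIntegral_mono_on (hbm.int1 t x 0 t).abs (hdm'.int1 t x 0 t) measurableSet_Ioc ?_
      intro s _
      refine abs_integral_le_integral_abs.trans ?_
      show H (t - s) (fun y => |u s y * (1 - u s y) - v s y * (1 - v s y)|) x ≤ _
      refine H_mono (C := 1 + 1) (C' := 1) ?_ (hdm'.meas' s) ?_ (hdm'.bd s) ?_ (t - s) x
      · exact (continuous_abs.measurable).comp (hbm.meas' s)
      · intro y
        rw [abs_abs]
        exact hbm.bd s y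
      · intro y
        exact F_lip (hu.mem s y) (hv.mem s y)

/-- uniqueness -/
theorem mild_unique {φ : EN N → ℝ} {u v : ℝ → EN N → ℝ} (hu : Mild φ u) (hv : Mild φ v) (t : ℝ)
    (ht : 0 ≤ t) : u t = v t := by
  funext x
  have := local_le hu hv t ht x
  simp only [sub_self, abs_zero, H_const, mul_zero] at this
  exact sub_eq_zero.1 (abs_nonpos_iff.1 this)

end Pool.Agent.R962.KPP
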