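import Pool.Agent.R962.KPP.Exist
import Pool.Agent.R962.KPP.Geom

/-!
# Spreading and the asymptotic translation invariance in the second variable
-/

namespace Pool.Agent.R962.KPP

open MeasureTheory Set Filter Topology ProbabilityTheory
open scoped ENNReal RealInnerProductSpace

/-- the initial datum -/
noncomputable def φU : EN 2 → ℝ := UU.indicator fun _ => 1

theorem φU_meas : Measurable φU := measurable_const.indicator UU_closed.measurableSet

theorem φU_mem (x : EN 2) : φU x ∈ Icc (0 : ℝ) 1 := by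
  unfold φU
  by_cases h : x ∈ UU
  · rw [Set.indicator_of_mem h]; exact ⟨zero_le_one, le_rfl⟩
  · rw [Set.indicator_of_notMem h]; exact ⟨le_rfl, zero_le_one⟩

theorem Γ_eq (N : ℕ) : Γ N = volume.withDensity fun y => ENNReal.ofReal (ker N (1 / 2) y) := by
  rw [← map_eq (by norm_num : (0 : ℝ) < 1 / 2)]
  simp

theorem Γ_open_pos {N : ℕ} {V : Set (EN N)} (hV : IsOpen V) (hne : V.Nonempty) :
    0 < (Γ N).real V := by
  rw [Measure.real, ENNReal.toReal_pos_iff]
  refine ⟨?_, measure_lt_top _ _⟩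
  rw [pos_iff_ne_zero]
  intro h0
  have hac : (volume : Measure (EN N)) ≪ Γ N := by
    rw [Γ_eq]
    refine withDensity_absolutelyContinuous' (ker_meas _).ennreal_ofReal.aemeasurable ?_
    exact Filter.Eventually.of_forall fun y => by
      have := ker_pos (N := N) (by norm_num : (0 : ℝ) < 1 / 2) y
      rw [ne_eq, ENNReal.ofReal_eq_zero, not_le]
      exact this
  exact (hV.measure_pos volume hne).ne' (hac h0)

theorem φU_ge {x y : EN 2} {t R : ℝ} (ht : 0 ≤ t) (hxy : ‖y - x‖ ≤ R)
    (h : W (x 1) + 2 * R ≤ √(2 * t)) :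
    min ((Γ 2).real {z | 1 < z 0 ∧ z 1 < 0}) ((Γ 2).real {z | z 0 < -1 ∧ z 1 < 0}) ≤ H t φU y := by
  have e0 := (abs_le_norm0 (y - x)).trans hxy
  have e1 := (abs_le_norm1 (y - x)).trans hxy
  have e0' : |y 0 - x 0| ≤ R := e0
  have e1' : |y 1 - x 1| ≤ R := e1
  have hR : 0 ≤ R := (norm_nonneg _).trans hxy
  have hH : H t φU y = (Γ 2).real {z | y + √(2 * t) • z ∈ UU} := by
    have h1 : ∀ z, φU (y + √(2 * t) • z) =
        {z | y + √(2 * t) • z ∈ UU}.indicator (fun _ => (1 : ℝ)) z := fun z => rfl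
    unfold H
    simp_rw [h1]
    rw [integral_indicator_const _ ?_, smul_eq_mul, mul_one]
    exact (by fun_prop : Measurable fun z : EN 2 => y + √(2 * t) • z) UU_closed.measurableSet
  have hr := Real.sqrt_nonneg (2 * t)
  have hW : ∀ z : EN 2, z 1 < 0 → W (y 1 + √(2 * t) * z 1) ≤ W (x 1) + R := by
    intro z hz
    have h1 : y 1 + √(2 * t) * z 1 ≤ x 1 + R := by
      have : √(2 * t) * z 1 ≤ 0 := mul_nonpos_of_nonneg_of_nonpos hr hz.le
      linarith [(abs_le.1 e1').2]
    have h2 := W_mono h1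
    have h3 := W_lip (s := x 1) (t := x 1 + R) (by linarith)
    linarith
  rw [hH]
  rcases le_total 0 (x 0) with hx | hx
  · refine (min_le_left _ _).trans (measureReal_mono ?_)
    rintro z ⟨hz0, hz1⟩
    show W (y 1 + √(2 * t) * z 1) ≤ |y 0 + √(2 * t) * z 0|
    have h1 := hW z hz1
    have h2 : √(2 * t) ≤ √(2 * t) * z 0 := le_mul_of_one_le_right hr hz0.le
    have h3 := (abs_le.1 e0').1
    have h4 := le_abs_self (y 0 + √(2 * t) * z 0)
    linarith
  · refine (min_le_right _ _).trans (measureReal_mono ?_)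
    rintro z ⟨hz0, hz1⟩
    show W (y 1 + √(2 * t) * z 1) ≤ |y 0 + √(2 * t) * z 0|
    have h1 := hW z hz1
    have h2 : √(2 * t) ≤ √(2 * t) * -z 0 := le_mul_of_one_le_right hr (by linarith)
    have h3 := (abs_le.1 e0').2
    have h4 := neg_le_abs (y 0 + √(2 * t) * z 0)
    linarith

theorem norm_int (N : ℕ) : Integrable (fun z : EN N => ‖z‖) (Γ N) :=
  (IsGaussian.integrable_id (μ := Γ N)).norm

/-- the first absolute moment -/
noncomputable def m1 (N : ℕ) : ℝ := ∫ z : EN N, ‖z‖ ∂(Γ N)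

theorem m1_nonneg (N : ℕ) : 0 ≤ m1 N := integral_nonneg fun _ => norm_nonneg _

theorem tail_le {N : ℕ} {c R : ℝ} (hc : 0 ≤ c) (hR : 0 < R) :
    (Γ N).real {z | R < c * ‖z‖} ≤ c * m1 N / R := by
  rw [le_div_iff₀ hR, mul_comm]
  have h1 := mul_meas_ge_le_integral_of_nonneg (μ := Γ N) (f := fun z => c * ‖z‖)
    (Filter.Eventually.of_forall fun z => by positivity) ((norm_int N).const_mul c) R
  have h2 : ∫ z, c * ‖z‖ ∂(Γ N) = c * m1 N := integral_const_mul _ _
  rw [h2] at h1
  refine le_trans (mul_le_mul_of_nonneg_left (measureReal_mono ?_) hR.le) h1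
  intro z hz
  exact (show R < c * ‖z‖ from hz).le

/-- **Region I.** -/
theorem region1 {u : ℝ → EN 2 → ℝ} (hu : Mild φU u) {ε : ℝ} (hε : 0 < ε) :
    ∀ᶠ t in atTop, ∀ x : EN 2, W (x 1) ≤ √t → 1 - ε ≤ u t x := by
  set a := min ((Γ 2).real {z | 1 < z 0 ∧ z 1 < 0}) ((Γ 2).real {z | z 0 < -1 ∧ z 1 < 0}) with ha
  have ha0 : 0 < a := by
    refine lt_min (Γ_open_pos ?_ ⟨pt 2 (-1), ?_⟩) (Γ_open_pos ?_ ⟨pt (-2) (-1), ?_⟩)
    · exact (isOpen_lt (f := fun _ : EN 2 => (1 : ℝ)) (g := fun z : EN 2 => z 0)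
        continuous_const (by fun_prop)).inter
        (isOpen_lt (f := fun z : EN 2 => z 1) (g := fun _ : EN 2 => (0 : ℝ))
        (by fun_prop) continuous_const)
    · show (1 : ℝ) < 2 ∧ (-1 : ℝ) < 0
      norm_num
    · exact (isOpen_lt (f := fun z : EN 2 => z 0) (g := fun _ : EN 2 => (-1 : ℝ))
        (by fun_prop) continuous_const).inter
        (isOpen_lt (f := fun z : EN 2 => z 1) (g := fun _ : EN 2 => (0 : ℝ))
        (by fun_prop) continuous_const)
    · show (-2 : ℝ) < -1 ∧ (-1 : ℝ) < 0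
      norm_num
  set S := 2 / (a * ε) with hS
  have hS0 : 0 < S := by positivity
  set R := 2 * √(2 * S) * m1 2 / ε + 1 with hRdef
  have hR1 : 1 ≤ R := by
    have := m1_nonneg 2
    have : 0 ≤ 2 * √(2 * S) * m1 2 / ε := by positivity
    linarith
  have hR0 : 0 < R := by linarith
  have htail : (Γ 2).real {z | R < √(2 * S) * ‖z‖} ≤ ε / 2 := by
    refine (tail_le (Real.sqrt_nonneg _) hR0).trans ?_
    rw [div_le_iff₀ hR0, hRdef]
    have : ε / 2 * (2 * √(2 * S) * m1 2 / ε + 1) = √(2 * S) * m1 2 + ε / 2 := by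
      field_simp
    rw [this]
    linarith
  filter_upwards [eventually_ge_atTop (72 * R ^ 2 + 4 * S)] with t ht x hx
  have hsq : √t ^ 2 = t := Real.sq_sqrt (by nlinarith)
  have h8 : 8 * R ≤ √t := Real.le_sqrt_of_sq_le (by nlinarith)
  have hroot : √t + 2 * R ≤ √(2 * (t - S)) := by
    refine Real.le_sqrt_of_sq_le ?_
    nlinarith [mul_le_mul_of_nonneg_left h8 (Real.sqrt_nonneg t)]
  have key := hu.inv (m := a) (S := S) (R := R) (t := t) ha0 hS0 (by nlinarith) x ?_
  · have h1 : 1 / (a * S) = ε / 2 := by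
      rw [hS]
      field_simp
    rw [h1] at key
    linarith
  · intro s hs y hy
    have hs0 : 0 ≤ s := by nlinarith [hs.1]
    refine le_trans (φU_ge hs0 hy ?_) (hu.ge_heat hs0 y)
    have h1 : √(2 * (t - S)) ≤ √(2 * s) := Real.sqrt_le_sqrt (by linarith [hs.1])
    linarith

theorem gauss_Icc (a b : ℝ) (hab : a ≤ b) : (gaussianReal 0 1).real (Icc a b) ≤ b - a := by
  have h1 : gaussianReal 0 1 (Icc a b) ≤ ENNReal.ofReal (b - a) := by
    rw [gaussianReal_apply _ one_ne_zero]
    have h2 : ∀ x, gaussianPDF 0 1 x ≤ 1 := by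
      intro x
      rw [gaussianPDF, ← ENNReal.ofReal_one]
      refine ENNReal.ofReal_le_ofReal ?_
      rw [gaussianPDFReal]
      have h3 : (√(2 * Real.pi * ((1 : NNReal) : ℝ)))⁻¹ ≤ 1 := by
        refine inv_le_one_of_one_le₀ (Real.one_le_sqrt.2 ?_)
        have := Real.pi_gt_three
        simp only [NNReal.coe_one, mul_one]
        linarith
      have h4 : Real.exp (-(x - 0) ^ 2 / (2 * ((1 : NNReal) : ℝ))) ≤ 1 := by
        refine Real.exp_le_one_iff.2 ?_
        simp only [NNReal.coe_one, mul_one]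
        have := sq_nonneg (x - 0)
        linarith
      calc _ ≤ 1 * (1 : ℝ) := mul_le_mul h3 h4 (Real.exp_pos _).le zero_le_one
        _ = 1 := one_mul _
    calc ∫⁻ x in Icc a b, gaussianPDF 0 1 x ≤ ∫⁻ _x in Icc a b, 1 :=
          lintegral_mono fun x => h2 x
      _ = ENNReal.ofReal (b - a) := by
        rw [setLIntegral_const, one_mul, Real.volume_Icc]
  rw [Measure.real]
  exact ENNReal.toReal_le_of_le_ofReal (by linarith) h1

theorem map_coord : (Γ 2).map (fun z : EN 2 => z 0) = gaussianReal 0 1 := by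
  have h1 := measurePreserving_eval_multivariateGaussian (μ := (0 : EuclideanSpace ℝ (Fin 2)))
    (S := (1 : Matrix (Fin 2) (Fin 2) ℝ)) Matrix.PosSemidef.one (i := 0)
  rw [multivariateGaussian_zero_one] at h1
  have h2 := h1.map_eq
  simpa using h2

theorem strip_le {c : ℝ} (hc : 1 ≤ c) (x0 a b : ℝ) (hab : a ≤ b) :
    (Γ 2).real {z | x0 + c * z 0 ∈ Icc a b} ≤ b - a := by
  have h1 : (Γ 2).real {z | x0 + c * z 0 ∈ Icc a b} =
      (gaussianReal 0 1).real (Icc ((a - x0) / c) ((b - x0) / c)) := by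
    rw [← map_coord, measureReal_def, measureReal_def,
      Measure.map_apply (by fun_prop) measurableSet_Icc]
    congr 2
    ext z
    have hc0 : 0 < c := by linarith
    simp only [mem_ofPred_eq, mem_preimage, mem_Icc]
    rw [div_le_iff₀ hc0, le_div_iff₀ hc0]
    constructor
    · rintro ⟨p, q⟩
      constructor <;> linarith
    · rintro ⟨p, q⟩
      constructor <;> linarith
  rw [h1]
  have hc0 : 0 < c := by linarith
  refine (gauss_Icc _ _ (div_le_div_of_nonneg_right (by linarith) hc0.le)).trans ?_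
  rw [← sub_div]
  have : b - x0 - (a - x0) = b - a := by ring
  rw [this]
  exact div_le_self (by linarith) hc

/-- shifted solutions -/
theorem Mild.shift {N : ℕ} {φ : EN N → ℝ} {u : ℝ → EN N → ℝ} (hu : Mild φ u) (h : EN N) :
    Mild (fun y => φ (y + h)) (fun t y => u t (y + h)) where
  measφ := hu.measφ.comp (measurable_add_const h)
  memφ x := hu.memφ _
  meas := hu.meas.comp (by fun_prop : Measurable fun q : ℝ × EN N => (q.1, q.2 + h))
  mem t x := hu.mem _ _
  eq t ht x := by
    rw [hu.eq t ht (x + h), H_shift]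
    congr 1
    refine setIntegral_congr_fun measurableSet_Ioc fun s _ => ?_
    beta_reduce
    rw [H_shift (fun y => u s y * (1 - u s y))]

/-- pointwise bound of the difference of the data -/
theorem D0_le {x : EN 2} {h K t : ℝ} (z : EN 2) :
    |φU (x + √(2 * t) • z + pt 0 h) - φU (x + √(2 * t) • z)| ≤
      ({z : EN 2 | K < √(2 * t) * ‖z‖}.indicator (fun _ => (1 : ℝ)) z +
      {z : EN 2 | x 0 + √(2 * t) * z 0 ∈ Icc (W (x 1 - K - |h|)) (W (x 1 + K + |h|))}.indicator
        (fun _ => (1 : ℝ)) z) +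
      {z : EN 2 | x 0 + √(2 * t) * z 0 ∈ Icc (-W (x 1 + K + |h|)) (-W (x 1 - K - |h|))}.indicator
        (fun _ => (1 : ℝ)) z := by
  set y := x + √(2 * t) • z with hy
  have hi : ∀ (A : Set (EN 2)) (w : EN 2), 0 ≤ A.indicator (fun _ => (1 : ℝ)) w := fun A w =>
    Set.indicator_nonneg (fun _ _ => zero_le_one) w
  have h01 : |φU (y + pt 0 h) - φU y| ≤ 1 := by
    have a1 := φU_mem (y + pt 0 h)
    have a2 := φU_mem y
    rw [abs_le]
    constructor <;> linarith [a1.1, a1.2, a2.1, a2.2]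
  by_cases hK : K < √(2 * t) * ‖z‖
  · have := Set.indicator_of_mem (s := {z : EN 2 | K < √(2 * t) * ‖z‖}) (a := z) hK
      (fun _ => (1 : ℝ))
    rw [this]
    have a1 := hi {z : EN 2 | x 0 + √(2 * t) * z 0 ∈
      Icc (W (x 1 - K - |h|)) (W (x 1 + K + |h|))} z
    have a2 := hi {z : EN 2 | x 0 + √(2 * t) * z 0 ∈
      Icc (-W (x 1 + K + |h|)) (-W (x 1 - K - |h|))} z
    linarith
  · rw [not_lt] at hK
    have hy1 : |y 1 - x 1| ≤ K := by
      have e1 : y 1 - x 1 = √(2 * t) * z 1 := by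
        show x 1 + √(2 * t) * z 1 - x 1 = _
        ring
      rw [e1, abs_mul, abs_of_nonneg (Real.sqrt_nonneg _)]
      exact (mul_le_mul_of_nonneg_left (abs_le_norm1 z) (Real.sqrt_nonneg _)).trans hK
    have hy0 : y 0 = x 0 + √(2 * t) * z 0 := rfl
    rw [abs_le] at hy1
    have hh := abs_nonneg h
    have hh1 := le_abs_self h
    have hh2 := neg_le_abs h
    have w1 : W (x 1 - K - |h|) ≤ W (y 1) := W_mono (by linarith)
    have w2 : W (x 1 - K - |h|) ≤ W (y 1 + h) := W_mono (by linarith)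
    have w3 : W (y 1) ≤ W (x 1 + K + |h|) := W_mono (by linarith)
    have w4 : W (y 1 + h) ≤ W (x 1 + K + |h|) := W_mono (by linarith)
    by_cases hmem : |y 0| ∈ Icc (W (x 1 - K - |h|)) (W (x 1 + K + |h|))
    · have a0 := hi {z : EN 2 | K < √(2 * t) * ‖z‖} z
      rcases le_total 0 (y 0) with hs | hs
      · rw [abs_of_nonneg hs] at hmem
        have := Set.indicator_of_mem (s := {z : EN 2 | x 0 + √(2 * t) * z 0 ∈
          Icc (W (x 1 - K - |h|)) (W (x 1 + K + |h|))}) (a := z) hmem (fun _ => (1 : ℝ))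
        rw [this]
        have a2 := hi {z : EN 2 | x 0 + √(2 * t) * z 0 ∈
          Icc (-W (x 1 + K + |h|)) (-W (x 1 - K - |h|))} z
        linarith
      · rw [abs_of_nonpos hs] at hmem
        have hmem' : x 0 + √(2 * t) * z 0 ∈
            Icc (-W (x 1 + K + |h|)) (-W (x 1 - K - |h|)) := by
          rw [← hy0]
          exact ⟨by linarith [hmem.2], by linarith [hmem.1]⟩
        have := Set.indicator_of_mem (s := {z : EN 2 | x 0 + √(2 * t) * z 0 ∈
          Icc (-W (x 1 + K + |h|)) (-W (x 1 - K - |h|))}) (a := z) hmem' (fun _ => (1 : ℝ))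
        rw [this]
        have a2 := hi {z : EN 2 | x 0 + √(2 * t) * z 0 ∈
          Icc (W (x 1 - K - |h|)) (W (x 1 + K + |h|))} z
        linarith
    · have hzero : φU (y + pt 0 h) = φU y := by
        have e0 : (y + pt 0 h) 0 = y 0 := by
          show y 0 + 0 = y 0
          ring
        have e1 : (y + pt 0 h) 1 = y 1 + h := rfl
        have hiff : y + pt 0 h ∈ UU ↔ y ∈ UU := by
          show W ((y + pt 0 h) 1) ≤ |(y + pt 0 h) 0| ↔ W (y 1) ≤ |y 0|
          rw [e0, e1]
          rw [mem_Icc, not_and_or, not_le, not_le] at hmem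
          rcases hmem with hm | hm
          · constructor
            · intro hc; linarith
            · intro hc; linarith
          · constructor
            · intro _; linarith
            · intro _; linarith
        unfold φU
        by_cases hc : y ∈ UU
        · rw [Set.indicator_of_mem hc, Set.indicator_of_mem (hiff.2 hc)]
        · rw [Set.indicator_of_notMem hc, Set.indicator_of_notMem (fun h' => hc (hiff.1 h'))]
      rw [hzero, sub_self, abs_zero]
      have a0 := hi {z : EN 2 | K < √(2 * t) * ‖z‖} z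
      have a1 := hi {z : EN 2 | x 0 + √(2 * t) * z 0 ∈
        Icc (W (x 1 - K - |h|)) (W (x 1 + K + |h|))} z
      have a2 := hi {z : EN 2 | x 0 + √(2 * t) * z 0 ∈
        Icc (-W (x 1 + K + |h|)) (-W (x 1 - K - |h|))} z
      linarith

theorem HD0_le {x : EN 2} {h K t : ℝ} (hK : 0 < K) (ht : 1 / 2 ≤ t) :
    H t (fun y => |φU (y + pt 0 h) - φU y|) x ≤ √(2 * t) * m1 2 / K +
      2 * (W (x 1 + K + |h|) - W (x 1 - K - |h|)) := by
  have hc : 1 ≤ √(2 * t) := Real.one_le_sqrt.2 (by linarith)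
  have hab : W (x 1 - K - |h|) ≤ W (x 1 + K + |h|) := W_mono (by linarith [abs_nonneg h])
  set A0 : Set (EN 2) := {z : EN 2 | K < √(2 * t) * ‖z‖} with hA0
  set A1 : Set (EN 2) := {z : EN 2 | x 0 + √(2 * t) * z 0 ∈
        Icc (W (x 1 - K - |h|)) (W (x 1 + K + |h|))} with hA1
  set A2 : Set (EN 2) := {z : EN 2 | x 0 + √(2 * t) * z 0 ∈
        Icc (-W (x 1 + K + |h|)) (-W (x 1 - K - |h|))} with hA2
  have m0 : MeasurableSet A0 := measurableSet_lt measurable_const (by fun_prop)
  have m1' : MeasurableSet A1 :=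
    (by fun_prop : Measurable fun z : EN 2 => x 0 + √(2 * t) * z 0) measurableSet_Icc
  have m2' : MeasurableSet A2 :=
    (by fun_prop : Measurable fun z : EN 2 => x 0 + √(2 * t) * z 0) measurableSet_Icc
  have i0 : Integrable (A0.indicator fun _ => (1 : ℝ)) (Γ 2) :=
    (integrable_const (1 : ℝ)).indicator m0
  have i1 : Integrable (A1.indicator fun _ => (1 : ℝ)) (Γ 2) :=
    (integrable_const (1 : ℝ)).indicator m1'
  have i2 : Integrable (A2.indicator fun _ => (1 : ℝ)) (Γ 2) :=
    (integrable_const (1 : ℝ)).indicator m2'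
  have i01 : Integrable (fun z => A0.indicator (fun _ => (1 : ℝ)) z +
      A1.indicator (fun _ => (1 : ℝ)) z) (Γ 2) := i0.add i1
  have hle : H t (fun y => |φU (y + pt 0 h) - φU y|) x ≤
      ∫ z, (A0.indicator (fun _ => (1 : ℝ)) z + A1.indicator (fun _ => (1 : ℝ)) z) +
        A2.indicator (fun _ => (1 : ℝ)) z ∂(Γ 2) := by
    unfold H
    refine integral_mono ?_ (i01.add i2) fun z => D0_le z
    refine int_comp (φ := fun y => |φU (y + pt 0 h) - φU y|) (C := 1) ?_ (fun y => ?_) t x
    · exact (continuous_abs.measurable).comp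
        ((φU_meas.comp (measurable_add_const _)).sub φU_meas)
    · rw [abs_abs, abs_le]
      have a1 := φU_mem (y + pt 0 h)
      have a2 := φU_mem y
      constructor <;> linarith [a1.1, a1.2, a2.1, a2.2]
  rw [integral_add i01 i2, integral_add i0 i1, integral_indicator_const _ m0,
    integral_indicator_const _ m1', integral_indicator_const _ m2'] at hle
  simp only [smul_eq_mul, mul_one] at hle
  have t0 : (Γ 2).real A0 ≤ √(2 * t) * m1 2 / K := tail_le (Real.sqrt_nonneg _) hK
  have t1 : (Γ 2).real A1 ≤ W (x 1 + K + |h|) - W (x 1 - K - |h|) := strip_le hc _ _ _ hab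
  have t2 : (Γ 2).real A2 ≤ -W (x 1 - K - |h|) - -W (x 1 + K + |h|) :=
    strip_le hc _ _ _ (by linarith)
  linarith

theorem exp_large : ∀ᶠ t : ℝ in atTop, ∀ s : ℝ, √t / 2 < W s → Real.exp (4 * t) ≤ 1 + s := by
  filter_upwards [eventually_ge_atTop 900] with t ht s hs
  have hs0 : 0 < s := by
    by_contra hcon
    rw [W_zero (not_lt.1 hcon)] at hs
    have := Real.sqrt_nonneg t
    linarith
  rw [W, max_eq_left hs0.le] at hs
  have h1 : √t < Real.log (1 + Real.log (1 + s)) := by linarith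
  have hl := log_one_nonneg hs0.le
  have h2 : Real.exp √t < 1 + Real.log (1 + s) := by
    rwa [Real.lt_log_iff_exp_lt (by linarith)] at h1
  have h30 : 30 ≤ √t := Real.le_sqrt_of_sq_le (by linarith)
  have hsq : √t ^ 2 = t := Real.sq_sqrt (by linarith)
  have h3 : √t ^ 3 / (Nat.factorial 3 : ℝ) ≤ Real.exp √t :=
    Real.pow_div_factorial_le_exp _ (Real.sqrt_nonneg t) 3
  have h4 : (Nat.factorial 3 : ℝ) = 6 := by norm_num [Nat.factorial]
  rw [h4] at h3
  have h5 : 4 * t + 1 ≤ √t ^ 3 / 6 := by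
    have : √t ^ 3 = √t * t := by rw [pow_succ, hsq]; ring
    rw [this]
    nlinarith
  have h6 : 4 * t < Real.log (1 + s) := by linarith
  rw [Real.lt_log_iff_exp_lt (by linarith)] at h6
  exact h6.le

/-- **Asymptotic invariance under translations in the second variable.** -/
theorem translation {u : ℝ → EN 2 → ℝ} (hu : Mild φU u) (h : ℝ) {ε : ℝ} (hε : 0 < ε) :
    ∀ᶠ t in atTop, ∀ x : EN 2, |u t (x + pt 0 h) - u t x| ≤ ε := by
  have hlim : Tendsto (fun t : ℝ => 2 * m1 2 * (t ^ 1 * Real.exp (-t)) +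
      8 * (t ^ 0 * Real.exp (-t))) atTop (𝓝 (2 * m1 2 * 0 + 8 * 0)) :=
    ((Real.tendsto_pow_mul_exp_neg_atTop_nhds_zero 1).const_mul _).add
      ((Real.tendsto_pow_mul_exp_neg_atTop_nhds_zero 0).const_mul _)
  rw [mul_zero, mul_zero, add_zero] at hlim
  filter_upwards [region1 hu hε, exp_large, hlim.eventually_lt_const hε,
    eventually_ge_atTop (1 + |h| + h ^ 2)] with t hI hexp hsmall ht x
  have ht1 : 1 ≤ t := by nlinarith [abs_nonneg h, sq_nonneg h]
  have hth : |h| ≤ √t := Real.le_sqrt_of_sq_le (by rw [sq_abs]; nlinarith [abs_nonneg h])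
  rcases le_or_gt (W (x 1)) (√t / 2) with hx | hx
  · have h1 := hI x (by linarith [Real.sqrt_nonneg t])
    have h2 := hI (x + pt 0 h) (by
      have e1 : (x + pt 0 h) 1 = x 1 + h := rfl
      rw [e1]
      have h3 := W_mono (show x 1 + h ≤ x 1 + |h| by linarith [le_abs_self h])
      have h4 := W_lip (s := x 1) (t := x 1 + |h|) (by linarith [abs_nonneg h])
      linarith)
    have h3 := (hu.mem t x).2
    have h4 := (hu.mem t (x + pt 0 h)).2
    rw [abs_le]
    constructor <;> linarith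
  · have h1 := local_le (hu.shift (pt 0 h)) hu t (by linarith) x
    refine h1.trans ?_
    have hX := hexp (x 1) hx
    set E := Real.exp (2 * t) with hE
    have hE0 : 0 < E := Real.exp_pos _
    have hE4 : Real.exp (4 * t) = E ^ 2 := by
      rw [hE, ← Real.exp_nat_mul]
      congr 1
      push_cast
      ring
    have hEt : 2 * t + 1 ≤ E := Real.add_one_le_exp _
    have hE2 : E = Real.exp t * Real.exp t := by
      rw [hE, ← Real.exp_add]
      congr 1
      ring
    have het : t + 1 ≤ Real.exp t := Real.add_one_le_exp _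
    have hEbig : 4 ≤ E := by
      rw [hE2]
      nlinarith
    have hhE : |h| ≤ E := by nlinarith [abs_nonneg h, sq_nonneg h]
    rw [hE4] at hX
    have h2 := HD0_le (x := x) (h := h) (K := E) (t := t) hE0 (by linarith)
    have hW : W (x 1 + E + |h|) - W (x 1 - E - |h|) ≤ 4 / E := by
      refine (W_diff (by nlinarith [abs_nonneg h]) (by linarith [abs_nonneg h])).trans ?_
      have hden : E ^ 2 / 2 ≤ 1 + (x 1 - E - |h|) := by nlinarith
      have hnum : x 1 + E + |h| - (x 1 - E - |h|) ≤ 4 * E := by linarith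
      rw [div_le_div_iff₀ (by nlinarith) hE0]
      nlinarith
    have hr : √(2 * t) ≤ 2 * t := by
      rw [Real.sqrt_le_left (by linarith)]
      nlinarith
    have hm := m1_nonneg 2
    have h3 : H t (fun y => |φU (y + pt 0 h) - φU y|) x ≤ (2 * t * m1 2 + 8) / E := by
      refine h2.trans ?_
      have e1 : √(2 * t) * m1 2 / E ≤ 2 * t * m1 2 / E :=
        div_le_div_of_nonneg_right (mul_le_mul_of_nonneg_right hr hm) hE0.le
      have e2 : (2 * t * m1 2 + 8) / E = 2 * t * m1 2 / E + 2 * (4 / E) := by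
        field_simp
        ring
      rw [e2]
      linarith
    refine (mul_le_mul_of_nonneg_left h3 (Real.exp_pos t).le).trans ?_
    have h4 : Real.exp t * ((2 * t * m1 2 + 8) / E) =
        2 * m1 2 * (t ^ 1 * Real.exp (-t)) + 8 * (t ^ 0 * Real.exp (-t)) := by
      rw [hE2, Real.exp_neg]
      have := (Real.exp_pos t).ne'
      field_simp
    rw [h4]
    exact hsmall.le

end Pool.Agent.R962.KPP
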